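import Mathlib

/-! # Charts of the blow-up

Let `S` be a noetherian domain, `𝔪` a maximal ideal, `f_1, …, f_n` elements of `𝔪` such that `𝔪` is
minimal over `(f_1, …, f_n)`, and let `C` be a set of less than `ht 𝔪` indices.  Then there are an
index `a ∉ C` and a maximal ideal `q` of `B = S[f_1/f_a, …, f_n/f_a]` which contains `𝔪` and all
`f_c/f_a` with `c ∈ C`.
-/

set_option autoImplicit false
set_option linter.unusedSectionVars false
set_option linter.style.haveILetI false

namespace H18H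

universe u

section

variable {S : Type u} [CommRing S] {n : ℕ}

/-- The ideals of the proof. -/
def Lid (𝔪 : Ideal S) (f : Fin n → S) (C : Finset (Fin n)) (N : ℕ) : Ideal S :=
  𝔪 * Ideal.span (Set.range f) ^ (N + 1) ⊔
    Ideal.span (f '' (C : Set (Fin n))) * Ideal.span (Set.range f) ^ N

lemma mul_mem_Lid (𝔪 : Ideal S) (f : Fin n → S) (C : Finset (Fin n)) {N r : ℕ} {x y : S}
    (hx : x ∈ Lid 𝔪 f C N) (hy : y ∈ Ideal.span (Set.range f) ^ r) : x * y ∈ Lid 𝔪 f C (N + r) := by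
  have h : Lid 𝔪 f C N * Ideal.span (Set.range f) ^ r ≤ Lid 𝔪 f C (N + r) := by
    rw [Lid, Lid, Ideal.sup_mul, mul_assoc, mul_assoc, ← pow_add, ← pow_add]
    have e : N + 1 + r = N + r + 1 := by omega
    rw [e]
  exact h (Ideal.mul_mem_mul hx hy)

lemma Lid_le (𝔪 : Ideal S) (f : Fin n → S) (C : Finset (Fin n)) (N : ℕ) :
    Lid 𝔪 f C N ≤ Ideal.span (Set.range f) ^ (N + 1) := by
  rw [Lid]
  refine sup_le Ideal.mul_le_right ?_
  rw [pow_succ']
  refine Ideal.mul_mono_left (Ideal.span_mono ?_)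
  rintro x ⟨c, _, rfl⟩
  exact ⟨c, rfl⟩

/-- If a power of every generator belongs to the ideals, then so do all products of many
generators. -/
lemma pow_le_of_pow_mem (𝔪 : Ideal S) (f : Fin n → S) (C : Finset (Fin n)) (N : ℕ)
    (h : ∀ a, f a ^ (N + 1) ∈ Lid 𝔪 f C N) :
    Ideal.span (Set.range f) ^ (n * N + (N + 1)) ≤ Lid 𝔪 f C (n * N + N) := by
  rcases Nat.eq_zero_or_pos n with h0 | h0
  · subst h0
    have : Ideal.span (Set.range f) = ⊥ := by
      rw [Set.range_eq_empty, Ideal.span_empty]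
    rw [this, ← Ideal.zero_eq_bot, zero_pow (by omega)]
    exact bot_le
  rw [show Ideal.span (Set.range f) = Submodule.span S (Set.range f) from rfl,
    Submodule.span_pow, Submodule.span_le]
  intro x hx
  rw [Set.mem_pow] at hx
  obtain ⟨g, rfl⟩ := hx
  rw [List.prod_ofFn]
  choose t ht using fun i => (g i).2
  obtain ⟨a, ha⟩ := Fintype.exists_lt_card_fiber_of_mul_lt_card (f := t) (n := N) (by
    rw [Fintype.card_fin, Fintype.card_fin]
    omega)
  obtain ⟨s, hs, hcard⟩ := Finset.exists_subset_card_eq (s := Finset.univ.filter fun x => t x = a)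
    (n := N + 1) ha
  rw [← Finset.prod_mul_prod_compl s]
  have e1 : ∏ i ∈ s, ((g i : S)) = f a ^ (N + 1) := by
    have e0 : ∏ i ∈ s, ((g i : S)) = ∏ _i ∈ s, f a := by
      refine Finset.prod_congr rfl fun i hi => ?_
      rw [← ht i, (Finset.mem_filter.1 (hs hi)).2]
    rw [e0, Finset.prod_const, hcard]
  have e2 : ∏ i ∈ sᶜ, ((g i : S)) ∈ Ideal.span (Set.range f) ^ (n * N) := by
    have h3 : sᶜ.card = n * N := by
      rw [Finset.card_compl, hcard, Fintype.card_fin]
      omega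
    have h5 : ∏ i ∈ sᶜ, ((g i : S)) ∈ ∏ _i ∈ sᶜ, Ideal.span (Set.range f) :=
      Ideal.prod_mem_prod fun i _ => Ideal.subset_span (g i).2
    rwa [Finset.prod_const, h3] at h5
  rw [e1]
  have h4 := mul_mem_Lid 𝔪 f C (h a) e2
  rwa [add_comm N (n * N)] at h4

end

section chart

variable {S : Type u} [CommRing S] [IsDomain S] {n : ℕ}

/-- The chart. -/
noncomputable def Bl (f : Fin n → S) (a : Fin n) : Subalgebra S (FractionRing S) :=
  Algebra.adjoin S (Set.range fun i => algebraMap S (FractionRing S) (f i) /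
    algebraMap S (FractionRing S) (f a))

/-- The fractions `f_i/f_a`. -/
noncomputable def pB (f : Fin n → S) (a : Fin n) (i : Fin n) : Bl f a :=
  ⟨algebraMap S (FractionRing S) (f i) / algebraMap S (FractionRing S) (f a),
    Algebra.subset_adjoin ⟨i, rfl⟩⟩

lemma algebraMap_inj : Function.Injective (algebraMap S (FractionRing S)) :=
  IsFractionRing.injective S (FractionRing S)

lemma pB_self (f : Fin n → S) (a : Fin n) (ha : f a ≠ 0) : pB f a a = 1 := by
  apply Subtype.ext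
  change algebraMap S (FractionRing S) (f a) / algebraMap S (FractionRing S) (f a) = 1
  exact div_self ((map_ne_zero_iff _ algebraMap_inj).2 ha)

lemma mul_pB (f : Fin n → S) (a : Fin n) (ha : f a ≠ 0) (i : Fin n) :
    algebraMap S (Bl f a) (f i) = algebraMap S (Bl f a) (f a) * pB f a i := by
  apply Subtype.ext
  change algebraMap S (FractionRing S) (f i) = algebraMap S (FractionRing S) (f a) *
    (algebraMap S (FractionRing S) (f i) / algebraMap S (FractionRing S) (f a))
  rw [mul_div_cancel₀]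
  exact (map_ne_zero_iff _ algebraMap_inj).2 ha

/-- Every element of the chart has a numerator in a power of the ideal. -/
lemma exists_num (f : Fin n → S) (a : Fin n) (ha : f a ≠ 0) (b : Bl f a) :
    ∃ N : ℕ, ∃ y ∈ Ideal.span (Set.range f) ^ N,
      algebraMap S (FractionRing S) y =
        algebraMap S (FractionRing S) (f a) ^ N * (b : FractionRing S) := by
  have hfa : algebraMap S (FractionRing S) (f a) ≠ 0 := (map_ne_zero_iff _ algebraMap_inj).2 ha
  have hfI : f a ∈ Ideal.span (Set.range f) := Ideal.subset_span ⟨a, rfl⟩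
  obtain ⟨b, hb⟩ := b
  induction hb using Algebra.adjoin_induction with
  | mem x hx =>
    obtain ⟨i, rfl⟩ := hx
    refine ⟨1, f i, ?_, ?_⟩
    · rw [pow_one]; exact Ideal.subset_span ⟨i, rfl⟩
    · simp only [pow_one]
      rw [mul_div_cancel₀ _ hfa]
  | algebraMap r => exact ⟨0, r, by simp, by simp⟩
  | add x y hx hy h1 h2 =>
    obtain ⟨N, u, hu, hu'⟩ := h1
    obtain ⟨M, v, hv, hv'⟩ := h2
    refine ⟨N + M, u * f a ^ M + v * f a ^ N, ?_, ?_⟩
    · refine Ideal.add_mem _ ?_ ?_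
      · rw [pow_add]; exact Ideal.mul_mem_mul hu (Ideal.pow_mem_pow hfI M)
      · rw [add_comm N M, pow_add]; exact Ideal.mul_mem_mul hv (Ideal.pow_mem_pow hfI N)
    · simp only at hu' hv' ⊢
      rw [map_add, map_mul, map_mul, map_pow, map_pow, hu', hv']
      ring
  | mul x y hx hy h1 h2 =>
    obtain ⟨N, u, hu, hu'⟩ := h1
    obtain ⟨M, v, hv, hv'⟩ := h2
    refine ⟨N + M, u * v, ?_, ?_⟩
    · rw [pow_add]; exact Ideal.mul_mem_mul hu hv
    · simp only at hu' hv' ⊢
      rw [map_mul, hu', hv']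
      ring

/-- The ideal of the chart which has to be proper. -/
noncomputable def Qa (𝔪 : Ideal S) (f : Fin n → S) (C : Finset (Fin n)) (a : Fin n) :
    Ideal (Bl f a) :=
  𝔪.map (algebraMap S (Bl f a)) ⊔ Ideal.span (pB f a '' C)

lemma exists_Lid (𝔪 : Ideal S) (f : Fin n → S) (C : Finset (Fin n)) (a : Fin n) (ha : f a ≠ 0)
    (x : Bl f a) (hx : x ∈ Qa 𝔪 f C a) : ∃ N : ℕ, ∃ y ∈ Lid 𝔪 f C N,
      algebraMap S (FractionRing S) y =
        algebraMap S (FractionRing S) (f a) ^ (N + 1) * (x : FractionRing S) := by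
  have hfa : algebraMap S (FractionRing S) (f a) ≠ 0 := (map_ne_zero_iff _ algebraMap_inj).2 ha
  have hfI : f a ∈ Ideal.span (Set.range f) := Ideal.subset_span ⟨a, rfl⟩
  have hx' : x ∈ Ideal.span (((algebraMap S (Bl f a)) '' 𝔪) ∪ (pB f a '' C)) := by
    rw [Ideal.span_union]
    exact hx
  refine Submodule.span_induction (R := Bl f a) (M := Bl f a) (p := fun (x : Bl f a) _ => ∃ N : ℕ, ∃ y ∈ Lid 𝔪 f C N,
      algebraMap S (FractionRing S) y =
        algebraMap S (FractionRing S) (f a) ^ (N + 1) * (x : FractionRing S)) ?_ ?_ ?_ ?_ hx'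
  · rintro x (⟨s, hs, rfl⟩ | ⟨c, hc, rfl⟩)
    · refine ⟨0, s * f a, ?_, ?_⟩
      · refine Ideal.mem_sup_left ?_
        rw [zero_add, pow_one]
        exact Ideal.mul_mem_mul hs hfI
      · rw [map_mul, zero_add, pow_one, mul_comm]
        rfl
    · refine ⟨0, f c, ?_, ?_⟩
      · refine Ideal.mem_sup_right ?_
        rw [pow_zero, mul_one]
        exact Ideal.subset_span ⟨c, hc, rfl⟩
      · rw [zero_add, pow_one]
        change _ = algebraMap S (FractionRing S) (f a) *
          (algebraMap S (FractionRing S) (f c) / algebraMap S (FractionRing S) (f a))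
        rw [mul_div_cancel₀ _ hfa]
  · exact ⟨0, 0, Ideal.zero_mem _, by simp⟩
  · rintro x y _ _ ⟨N, u, hu, hu'⟩ ⟨M, v, hv, hv'⟩
    refine ⟨N + M, u * f a ^ M + v * f a ^ N, ?_, ?_⟩
    · refine Ideal.add_mem _ ?_ ?_
      · exact mul_mem_Lid 𝔪 f C hu (Ideal.pow_mem_pow hfI M)
      · rw [add_comm N M]
        exact mul_mem_Lid 𝔪 f C hv (Ideal.pow_mem_pow hfI N)
    · rw [map_add, map_mul, map_mul, map_pow, map_pow, hu', hv']
      push_cast
      ring
  · rintro b x _ ⟨N, u, hu, hu'⟩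
    obtain ⟨M, v, hv, hv'⟩ := exists_num f a ha b
    refine ⟨N + M, u * v, mul_mem_Lid 𝔪 f C hu hv, ?_⟩
    rw [map_mul, hu', hv', smul_eq_mul]
    push_cast
    ring

/-- The chart lemma. -/
theorem exists_chart [IsNoetherianRing S] (𝔪 : Ideal S) [h𝔪 : 𝔪.IsMaximal] (f : Fin n → S)
    (hle : Ideal.span (Set.range f) ≤ 𝔪)
    (hmin : ∀ P : Ideal S, P.IsPrime → Ideal.span (Set.range f) ≤ P → P ≤ 𝔪 → P = 𝔪)
    (C : Finset (Fin n)) (hC : (C.card : ℕ∞) < 𝔪.height) :
    ∃ a, a ∉ C ∧ f a ≠ 0 ∧ ∃ q : Ideal (Bl f a), q.IsMaximal ∧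
      (∀ x ∈ 𝔪, algebraMap S (Bl f a) x ∈ q) ∧ ∀ c ∈ C, pB f a c ∈ q := by
  by_contra hcon
  push Not at hcon
  -- all charts outside `C` are empty
  have hQ : ∀ a, a ∉ C → f a ≠ 0 → Qa 𝔪 f C a = ⊤ := by
    intro a haC ha
    by_contra hne
    obtain ⟨q, hq, hqle⟩ := Ideal.exists_le_maximal _ hne
    obtain ⟨c, hc, hcq⟩ := hcon a haC ha q hq (fun x hx =>
      hqle (Ideal.mem_sup_left (Ideal.mem_map_of_mem _ hx)))
    exact hcq (hqle (Ideal.mem_sup_right (Ideal.subset_span ⟨c, hc, rfl⟩)))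
  have h1 : ∀ a, ∃ N : ℕ, f a ^ (N + 1) ∈ Lid 𝔪 f C N := by
    intro a
    by_cases haC : a ∈ C
    · refine ⟨0, Ideal.mem_sup_right ?_⟩
      rw [pow_zero, mul_one, zero_add, pow_one]
      exact Ideal.subset_span ⟨a, haC, rfl⟩
    · by_cases ha : f a = 0
      · exact ⟨0, by rw [ha, zero_add, pow_one]; exact Ideal.zero_mem _⟩
      · obtain ⟨N, y, hy, hy'⟩ := exists_Lid 𝔪 f C a ha 1 (by rw [hQ a haC ha]; exact Submodule.mem_top)
        refine ⟨N, ?_⟩
        have : y = f a ^ (N + 1) := by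
          apply algebraMap_inj
          rw [hy', map_pow]
          simp
        rwa [← this]
  choose N hN using h1
  have h2 : ∀ a, f a ^ ((∑ b, N b) + 1) ∈ Lid 𝔪 f C (∑ b, N b) := by
    intro a
    have hle : N a ≤ ∑ b, N b := Finset.single_le_sum (fun _ _ => Nat.zero_le _) (Finset.mem_univ a)
    have := mul_mem_Lid 𝔪 f C (hN a)
      (Ideal.pow_mem_pow (Ideal.subset_span ⟨a, rfl⟩ : f a ∈ Ideal.span (Set.range f))
        ((∑ b, N b) - N a))
    rw [← pow_add] at this
    have e1 : N a + 1 + ((∑ b, N b) - N a) = (∑ b, N b) + 1 := by omega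
    have e2 : N a + ((∑ b, N b) - N a) = ∑ b, N b := by omega
    rwa [e1, e2] at this
  have h3 := pow_le_of_pow_mem 𝔪 f C _ h2
  set K := n * (∑ b, N b) + ∑ b, N b with hK
  have e3 : n * (∑ b, N b) + ((∑ b, N b) + 1) = K + 1 := by omega
  rw [e3] at h3
  -- Nakayama
  set I := Ideal.span (Set.range f) with hI
  set D := Ideal.span (f '' (C : Set (Fin n))) with hD
  obtain ⟨r, hr1, hr2⟩ : ∃ r : S, r - 1 ∈ 𝔪 ∧ ∀ x ∈ I ^ (K + 1), r * x ∈ D * I ^ K := by
    have hfg : (I ^ (K + 1)).FG := IsNoetherian.noetherian _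
    have hfg' : (Submodule.map (Submodule.mkQ (D * I ^ K)) (I ^ (K + 1))).FG :=
      Submodule.FG.map (Submodule.mkQ (D * I ^ K)) hfg
    have hle' : Submodule.map (Submodule.mkQ (D * I ^ K)) (I ^ (K + 1)) ≤
        𝔪 • Submodule.map (Submodule.mkQ (D * I ^ K)) (I ^ (K + 1)) := by
      rw [← Submodule.map_smul'']
      rintro _ ⟨x, hx, rfl⟩
      obtain ⟨y, hy, z, hz, rfl⟩ := Submodule.mem_sup.1 (h3 hx)
      refine ⟨y, ?_, ?_⟩
      · exact hy
      · have hz0 : Submodule.mkQ (D * I ^ K) z = 0 := (Submodule.Quotient.mk_eq_zero _).2 hz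
        rw [map_add, hz0, add_zero]
    obtain ⟨r, hr1, hr2⟩ := Submodule.exists_sub_one_mem_and_smul_eq_zero_of_fg_of_le_smul 𝔪 _
      hfg' hle'
    refine ⟨r, hr1, fun x hx => ?_⟩
    have := hr2 (Submodule.mkQ (D * I ^ K) x) ⟨x, hx, rfl⟩
    rw [← map_smul] at this
    exact (Submodule.Quotient.mk_eq_zero _).1 this
  -- the ideal of `C` has the same minimal prime
  have hDI : D ≤ I := Ideal.span_mono (by rintro x ⟨c, _, rfl⟩; exact ⟨c, rfl⟩)
  have h5 : 𝔪 ∈ D.minimalPrimes := by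
    refine ⟨⟨h𝔪.isPrime, hDI.trans hle⟩, ?_⟩
    rintro P ⟨hP, hDP⟩ hPm
    have hIP : I ≤ P := by
      intro x hx
      have hx1 : x ^ (K + 1) ∈ I ^ (K + 1) := Ideal.pow_mem_pow hx _
      have hx2 := hDP (Ideal.mul_le_right.trans' (le_of_eq (mul_comm _ _)) (hr2 _ hx1))
      rcases hP.mem_or_mem hx2 with h | h
      · exfalso
        have h1 : (1 : S) ∈ 𝔪 := by
          have := Ideal.sub_mem _ (hPm h) hr1
          simpa using this
        exact h𝔪.ne_top ((Ideal.eq_top_iff_one _).2 h1)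
      · exact hP.mem_of_pow_mem _ h
    exact (hmin P hP hIP hPm).ge
  have hfin : (f '' (C : Set (Fin n))).Finite := (Finset.finite_toSet C).image f
  have h6 := Ideal.height_le_card_of_mem_minimalPrimes_span hfin h5
  have h7 : (f '' (C : Set (Fin n))).ncard ≤ C.card := by
    have := Set.ncard_image_le (f := f) (Finset.finite_toSet C)
    rwa [Set.ncard_coe_finset] at this
  exact absurd (lt_of_lt_of_le hC h6) (not_lt.2 (by exact_mod_cast h7))

end chart

end H18H
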