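import Mathlib

/-! # The Eagon bound

Let `A` be a noetherian ring, `φ` a `p × q` matrix with `p ≤ q + 1`, and `J φ` the ideal of all
`s` with `s A^p` contained in the image of `φ` (the annihilator of the cokernel).  Every minimal
prime `P` of `J φ` satisfies `height P + p ≤ q + 1`.
-/

set_option autoImplicit false
set_option linter.unusedSectionVars false
set_option linter.style.haveILetI false

namespace H18H

open Matrix Polynomial

universe u

section defs

variable {A : Type u} [CommRing A] {ι κ : Type} [Fintype ι] [DecidableEq ι] [Fintype κ]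
  [DecidableEq κ]

/-- The annihilator of the cokernel of the matrix `φ`. -/
def J (φ : Matrix ι κ A) : Ideal A where
  carrier := {s | ∃ ψ : Matrix κ ι A, φ * ψ = s • (1 : Matrix ι ι A)}
  add_mem' := by
    rintro a b ⟨ψ, h⟩ ⟨ψ', h'⟩
    exact ⟨ψ + ψ', by rw [Matrix.mul_add, h, h', add_smul]⟩
  zero_mem' := ⟨0, by rw [Matrix.mul_zero, zero_smul]⟩
  smul_mem' := by
    rintro c a ⟨ψ, h⟩
    exact ⟨c • ψ, by rw [Matrix.mul_smul, h, smul_smul, smul_eq_mul]⟩

lemma mem_J {φ : Matrix ι κ A} {s : A} :
    s ∈ J φ ↔ ∃ ψ : Matrix κ ι A, φ * ψ = s • (1 : Matrix ι ι A) := Iff.rfl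

lemma J_submatrix {ι' κ' : Type} [Fintype ι'] [DecidableEq ι'] [Fintype κ'] [DecidableEq κ']
    (φ : Matrix ι κ A) (e : ι' ≃ ι) (f : κ' ≃ κ) : J (φ.submatrix e f) = J φ := by
  ext s
  constructor
  · rintro ⟨ψ, h⟩
    refine ⟨ψ.submatrix f.symm e.symm, ?_⟩
    have h2 : ((φ.submatrix e f) * ψ).submatrix e.symm e.symm =
        (s • (1 : Matrix ι' ι' A)).submatrix e.symm e.symm := by rw [h]
    rw [← Matrix.submatrix_mul_equiv (φ.submatrix e f) ψ e.symm f.symm e.symm] at h2
    simp only [Matrix.submatrix_submatrix, Equiv.self_comp_symm, Matrix.submatrix_id_id] at h2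
    rw [h2]
    ext i j
    simp [Matrix.one_apply]
  · rintro ⟨ψ, h⟩
    refine ⟨ψ.submatrix f e, ?_⟩
    rw [Matrix.submatrix_mul_equiv, h]
    ext i j
    simp [Matrix.one_apply]

end defs

section elim

variable {A : Type u} [CommRing A] {ι κ : Type} [Fintype ι] [DecidableEq ι] [Fintype κ]
  [DecidableEq κ]

/-- One elimination step. -/
def el (φ : Matrix (Option ι) (Option κ) A) : Matrix ι κ A := Matrix.of fun i j =>
  φ none none * φ (some i) (some j) - φ (some i) none * φ none (some j)

lemma el_apply (φ : Matrix (Option ι) (Option κ) A) (i : ι) (j : κ) :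
    el φ i j = φ none none * φ (some i) (some j) - φ (some i) none * φ none (some j) := rfl

lemma mul_mem_J_el (φ : Matrix (Option ι) (Option κ) A) {s : A} (h : s ∈ J φ) :
    φ none none * s ∈ J (el φ) := by
  obtain ⟨ψ, h⟩ := h
  refine ⟨Matrix.of fun j i => ψ (some j) (some i), ?_⟩
  ext i i'
  have h1 := congrFun (congrFun h (some i)) (some i')
  have h2 := congrFun (congrFun h none) (some i')
  rw [Matrix.mul_apply, Fintype.sum_option, Matrix.smul_apply, Matrix.one_apply, smul_eq_mul] at h1 h2
  rw [Matrix.mul_apply, Matrix.smul_apply, Matrix.one_apply, smul_eq_mul]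
  simp only [el_apply, Matrix.of_apply, sub_mul, Finset.sum_sub_distrib, mul_assoc,
    ← Finset.mul_sum]
  have e1 : ∑ x, φ (some i) (some x) * ψ (some x) (some i') =
      s * (if i = i' then 1 else 0) - φ (some i) none * ψ none (some i') := by
    rw [eq_sub_iff_add_eq, add_comm, h1]
    simp
  have e2 : ∑ x, φ none (some x) * ψ (some x) (some i') =
      - (φ none none * ψ none (some i')) := by
    rw [eq_neg_iff_add_eq_zero, add_comm, h2]
    simp
  rw [e1, e2]
  ring

lemma mul_mem_J_of_el (φ : Matrix (Option ι) (Option κ) A) {s : A} (h : s ∈ J (el φ)) :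
    φ none none * s ∈ J φ := by
  obtain ⟨ψ, h⟩ := h
  -- the vectors `V i'`
  let V : ι → Option κ → A := fun i' c => match c with
    | none => - ∑ j, φ none (some j) * ψ j i'
    | some j => φ none none * ψ j i'
  have hV : ∀ (i' : ι) (r : Option ι), ∑ c, φ r c * V i' c = if r = some i' then s else 0 := by
    intro i' r
    rw [Fintype.sum_option]
    cases r with
    | none =>
      simp only [V, reduceCtorEq, if_false]
      have : ∑ i, φ none (some i) * (φ none none * ψ i i') =
          φ none none * ∑ j, φ none (some j) * ψ j i' := by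
        rw [Finset.mul_sum]
        exact Finset.sum_congr rfl fun _ _ => by ring
      rw [this]
      ring
    | some i =>
      simp only [V, Option.some.injEq]
      have h1 := congrFun (congrFun h i) i'
      rw [Matrix.mul_apply, Matrix.smul_apply, Matrix.one_apply, smul_eq_mul] at h1
      simp only [el_apply, sub_mul, Finset.sum_sub_distrib] at h1
      have e1 : ∑ j, φ (some i) (some j) * (φ none none * ψ j i') =
          ∑ x, φ none none * φ (some i) (some x) * ψ x i' :=
        Finset.sum_congr rfl fun _ _ => by ring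
      have e2 : φ (some i) none * - ∑ j, φ none (some j) * ψ j i' =
          - ∑ x, φ (some i) none * φ none (some x) * ψ x i' := by
        rw [mul_neg, Finset.mul_sum]
        exact congrArg Neg.neg (Finset.sum_congr rfl fun _ _ => by ring)
      rw [e1, e2, neg_add_eq_sub, h1]
      split_ifs <;> simp
  refine ⟨Matrix.of fun c r => match r with
    | none => (if c = none then s else 0) - ∑ i, φ (some i) none * V i c
    | some i' => φ none none * V i' c, ?_⟩
  ext r r'
  rw [Matrix.mul_apply, Matrix.smul_apply, Matrix.one_apply, smul_eq_mul]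
  cases r' with
  | some i' =>
    simp only [Matrix.of_apply]
    have : ∑ x, φ r x * (φ none none * V i' x) = φ none none * ∑ x, φ r x * V i' x := by
      rw [Finset.mul_sum]
      exact Finset.sum_congr rfl fun _ _ => by ring
    rw [this, hV]
    split_ifs <;> simp
  | none =>
    simp only [Matrix.of_apply, mul_sub, Finset.sum_sub_distrib]
    have e1 : ∑ x, φ r x * (if x = none then s else 0) = φ r none * s := by
      simp
    have e2 : ∑ x, φ r x * ∑ i, φ (some i) none * V i x =
        ∑ i, φ (some i) none * ∑ x, φ r x * V i x := by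
      simp only [Finset.mul_sum]
      rw [Finset.sum_comm]
      exact Finset.sum_congr rfl fun _ _ => Finset.sum_congr rfl fun _ _ => by ring
    rw [e1, e2]
    simp only [hV]
    cases r with
    | none => simp
    | some i => simp

/-- Minimal primes are not changed by an elimination step outside the prime. -/
lemma mem_minimalPrimes_el (φ : Matrix (Option ι) (Option κ) A) {P : Ideal A}
    (hP : P ∈ (J φ).minimalPrimes) (hu : φ none none ∉ P) : P ∈ (J (el φ)).minimalPrimes := by
  have hPp : P.IsPrime := hP.1.1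
  refine ⟨⟨hPp, fun s hs => ?_⟩, ?_⟩
  · exact (hPp.mem_or_mem (hP.1.2 (mul_mem_J_of_el φ hs))).resolve_left hu
  · rintro Q ⟨hQ, hJ⟩ hQP
    refine hP.2 ⟨hQ, fun s hs => ?_⟩ hQP
    exact (hQ.mem_or_mem (hJ (mul_mem_J_el φ hs))).resolve_left fun h => hu (hQP h)

end elim

section main

variable {A : Type u} [CommRing A] {ι κ : Type} [Fintype ι] [DecidableEq ι] [Fintype κ]
  [DecidableEq κ]

/-- the determinant of `φ ψ` belongs to `J φ` -/
lemma det_mem_J (φ : Matrix ι κ A) (ψ : Matrix κ ι A) : (φ * ψ).det ∈ J φ :=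
  ⟨ψ * (φ * ψ).adjugate, by rw [← Matrix.mul_assoc, Matrix.mul_adjugate]⟩

/-- The perturbed matrix over the polynomial ring. -/
noncomputable def pert (φ : Matrix ι κ A) (i₀ : ι) (j₀ : κ) : Matrix ι κ A[X] :=
  φ.map C + (X : A[X]) • Matrix.single i₀ j₀ (1 : A[X])

lemma pert_apply (φ : Matrix ι κ A) (i₀ : ι) (j₀ : κ) (i : ι) (j : κ) :
    pert φ i₀ j₀ i j = C (φ i j) + if i₀ = i ∧ j₀ = j then X else 0 := by
  simp only [pert, Matrix.add_apply, Matrix.map_apply, Matrix.smul_apply, Matrix.single_apply,
    smul_eq_mul]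
  split_ifs <;> simp

/-- If the entries of `φ` lie in the minimal prime `P` and `φ` has at least two rows, then
`P A[X]` is a minimal prime of `J (pert φ)`. -/
lemma map_mem_minimalPrimes_pert [IsNoetherianRing A] (φ : Matrix ι κ A) (i₀ : ι) (j₀ : κ)
    {P : Ideal A} (hP : P ∈ (J φ).minimalPrimes) (hφ : ∀ i j, φ i j ∈ P)
    (i₁ : ι) (h1 : i₁ ≠ i₀) : P.map (C : A →+* A[X]) ∈ (J (pert φ i₀ j₀)).minimalPrimes := by
  have hPp : P.IsPrime := hP.1.1
  have hPB : (P.map (C : A →+* A[X])).IsPrime := Ideal.isPrime_map_C_of_isPrime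
  refine ⟨⟨hPB, fun s hs => ?_⟩, ?_⟩
  · obtain ⟨ψ, h⟩ := hs
    have h2 := congrFun (congrFun h i₁) i₁
    rw [Matrix.mul_apply, Matrix.smul_apply, Matrix.one_apply_eq, smul_eq_mul, mul_one] at h2
    rw [← h2]
    refine Ideal.sum_mem _ fun j _ => Ideal.mul_mem_right _ _ ?_
    rw [pert_apply, if_neg (fun h => h1 h.1.symm), add_zero]
    exact Ideal.mem_map_of_mem _ (hφ i₁ j)
  · rintro Q ⟨hQ, hJQ⟩ hQP
    -- the prime `(P, X)`
    let Q₀ : Ideal A[X] := P.comap (evalRingHom 0)
    have hQ₀ : Q₀.IsPrime := Ideal.IsPrime.comap _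
    have hXQ₀ : (X : A[X]) ∈ Q₀ := by
      rw [Ideal.mem_comap, coe_evalRingHom, eval_X]
      exact P.zero_mem
    have hPQ₀ : P.map (C : A →+* A[X]) ≤ Q₀ := by
      rw [Ideal.map_le_iff_le_comap]
      intro a ha
      rw [Ideal.mem_comap, Ideal.mem_comap, coe_evalRingHom, eval_C]
      exact ha
    have hmin : Q₀ ∈ (Q ⊔ Ideal.span {X}).minimalPrimes := by
      refine ⟨⟨hQ₀, sup_le (hQP.trans hPQ₀) ?_⟩, ?_⟩
      · rw [Ideal.span_singleton_le_iff_mem]
        exact hXQ₀
      · rintro Q' ⟨hQ', hle⟩ hQ'Q₀
        have hXQ' : (X : A[X]) ∈ Q' := hle (Ideal.mem_sup_right (Ideal.mem_span_singleton_self _))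
        have hQQ' : Q ≤ Q' := le_sup_left.trans hle
        have hJ : J φ ≤ Q'.comap C := by
          rintro s ⟨ψ, h⟩
          rw [Ideal.mem_comap]
          have hd := hJQ (det_mem_J (pert φ i₀ j₀) (ψ.map C))
          have hM : (pert φ i₀ j₀ * ψ.map C) =
              C s • (1 : Matrix ι ι A[X]) + (X : A[X]) • (Matrix.single i₀ j₀ (1 : A[X]) * ψ.map C) := by
            rw [pert, Matrix.add_mul, Matrix.smul_mul, ← Matrix.map_mul, h]
            congr 1
            ext i j : 2
            simp only [Matrix.map_apply, Matrix.smul_apply, Matrix.one_apply, smul_eq_mul, mul_ite,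
              mul_one, mul_zero]
            split_ifs <;> simp
          rw [hM] at hd
          -- modulo Q'
          have hd' := hQQ' hd
          have key : (Ideal.Quotient.mk Q') (C s) ^ Fintype.card ι = 0 := by
            rw [← Ideal.Quotient.eq_zero_iff_mem] at hd'
            rw [RingHom.map_det] at hd'
            have hX0 : (Ideal.Quotient.mk Q') X = 0 := Ideal.Quotient.eq_zero_iff_mem.2 hXQ'
            have h3 : (Ideal.Quotient.mk Q').mapMatrix
                (C s • (1 : Matrix ι ι A[X]) + (X : A[X]) • (Matrix.single i₀ j₀ (1 : A[X]) * ψ.map C)) =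
                (Ideal.Quotient.mk Q') (C s) • (1 : Matrix ι ι (A[X] ⧸ Q')) := by
              ext i j
              simp only [RingHom.mapMatrix_apply, Matrix.map_apply, Matrix.add_apply,
                Matrix.smul_apply, smul_eq_mul, map_add, map_mul, hX0, zero_mul, add_zero,
                Matrix.one_apply]
              split_ifs <;> simp
            rw [h3, Matrix.det_smul, Matrix.det_one, mul_one] at hd'
            exact hd'
          rw [← map_pow, Ideal.Quotient.eq_zero_iff_mem] at key
          exact hQ'.mem_of_pow_mem _ key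
        have hle2 : Q'.comap C ≤ P := by
          intro a ha
          have := hQ'Q₀ ha
          rw [Ideal.mem_comap, coe_evalRingHom, eval_C] at this
          exact this
        have hPle : P ≤ Q'.comap C := hP.2 ⟨Ideal.IsPrime.comap _, hJ⟩ hle2
        intro f hf
        rw [Ideal.mem_comap, coe_evalRingHom] at hf
        have h5 : C (f.eval 0) ∈ Q' := hPle hf
        have h6 : f - C (f.eval 0) ∈ Q' := by
          have : (X : A[X]) ∣ f - C (f.eval 0) := by
            rw [Polynomial.X_dvd_iff, coeff_sub, coeff_C_zero, coeff_zero_eq_eval_zero, sub_self]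
          obtain ⟨g, hg⟩ := this
          rw [hg]
          exact Ideal.mul_mem_right _ _ hXQ'
        have := Q'.add_mem h6 h5
        rwa [sub_add_cancel] at this
    have hht := Ideal.map_height_le_one_of_mem_minimalPrimes hmin
    by_contra hcon
    have hlt : Q < P.map (C : A →+* A[X]) := lt_of_le_of_ne hQP fun h => hcon h.ge
    have hlt2 : P.map (C : A →+* A[X]) < Q₀ := by
      refine lt_of_le_of_ne hPQ₀ fun h => ?_
      have := h ▸ hXQ₀
      rw [Ideal.mem_map_C_iff] at this
      have h1 := this 1
      rw [coeff_X_one] at h1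
      exact hPp.ne_top ((Ideal.eq_top_iff_one _).2 h1)
    -- chain of length two in the quotient
    have hk1 : RingHom.ker (Ideal.Quotient.mk Q) ≤ P.map (C : A →+* A[X]) := by
      rw [Ideal.mk_ker]; exact hQP
    have hk2 : RingHom.ker (Ideal.Quotient.mk Q) ≤ Q₀ := hk1.trans hPQ₀
    haveI i1 : ((P.map (C : A →+* A[X])).map (Ideal.Quotient.mk Q)).IsPrime :=
      Ideal.map_isPrime_of_surjective Ideal.Quotient.mk_surjective hk1
    haveI i2 : (Q₀.map (Ideal.Quotient.mk Q)).IsPrime :=
      Ideal.map_isPrime_of_surjective Ideal.Quotient.mk_surjective hk2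
    haveI i0 : (⊥ : Ideal (A[X] ⧸ Q)).IsPrime := by
      haveI := hQ
      exact Ideal.isPrime_bot
    have l1 : (⊥ : Ideal (A[X] ⧸ Q)) < (P.map (C : A →+* A[X])).map (Ideal.Quotient.mk Q) := by
      rw [bot_lt_iff_ne_bot]
      intro h
      rw [Ideal.map_eq_bot_iff_le_ker, Ideal.mk_ker] at h
      exact hlt.not_ge h
    have l2 : (P.map (C : A →+* A[X])).map (Ideal.Quotient.mk Q) <
        Q₀.map (Ideal.Quotient.mk Q) := by
      refine lt_of_le_of_ne (Ideal.map_mono hPQ₀) fun h => ?_
      have e1 := congrArg (Ideal.comap (Ideal.Quotient.mk Q)) h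
      rw [Ideal.comap_map_of_surjective _ Ideal.Quotient.mk_surjective,
        Ideal.comap_map_of_surjective _ Ideal.Quotient.mk_surjective,
        ← RingHom.ker_eq_comap_bot, sup_eq_left.2 hk1, sup_eq_left.2 hk2] at e1
      exact hlt2.ne e1
    have a1 := Ideal.height_add_one_le_of_lt_of_isPrime l1
    have a2 := Ideal.height_add_one_le_of_lt_of_isPrime l2
    have a3 : (0 : ℕ∞) + 1 + 1 ≤ 1 := by
      calc (0 : ℕ∞) + 1 + 1 ≤ (⊥ : Ideal (A[X] ⧸ Q)).height + 1 + 1 := by gcongr; exact zero_le
        _ ≤ ((P.map (C : A →+* A[X])).map (Ideal.Quotient.mk Q)).height + 1 := by gcongr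
        _ ≤ _ := a2
        _ ≤ 1 := hht
    exact absurd a3 (by decide)

/-- The height does not drop in the polynomial ring. -/
lemma height_le_height_map_C [IsNoetherianRing A] (P : Ideal A) [hP : P.IsPrime] :
    P.height ≤ (P.map (C : A →+* A[X])).height := by
  haveI : (P.map (C : A →+* A[X])).IsPrime := Ideal.isPrime_map_C_of_isPrime
  haveI : (P.map (C : A →+* A[X])).LiesOver P := by
    refine ⟨?_⟩
    refine le_antisymm (fun a ha => Ideal.mem_map_of_mem _ ha) fun a ha => ?_
    have ha' : C a ∈ P.map (C : A →+* A[X]) := ha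
    rw [Ideal.mem_map_C_iff] at ha'
    have := ha' 0
    rwa [coeff_C_zero] at this
  rw [Ideal.height_eq_height_add_of_liesOver_of_hasGoingDown P (P.map (C : A →+* A[X]))]
  exact le_self_add

/-- The Eagon bound. -/
theorem eagon (n : ℕ) : ∀ {A : Type u} [CommRing A] [IsNoetherianRing A] {ι κ : Type} [Fintype ι]
    [DecidableEq ι] [Fintype κ] [DecidableEq κ] (_ : Fintype.card ι = n)
    (_ : n ≤ Fintype.card κ + 1) (φ : Matrix ι κ A) (P : Ideal A)
    (_ : P ∈ (J φ).minimalPrimes), P.height + n ≤ Fintype.card κ + 1 := by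
  induction n with
  | zero =>
    intro A _ _ ι κ _ _ _ _ hn _ φ P hP
    haveI : IsEmpty ι := Fintype.card_eq_zero_iff.1 hn
    exfalso
    apply hP.1.1.ne_top
    rw [Ideal.eq_top_iff_one]
    exact hP.1.2 ⟨0, by ext i; exact isEmptyElim i⟩
  | succ n ih =>
    intro A _ _ ι κ _ _ _ _ hn hκ φ P hP
    have hPp : P.IsPrime := hP.1.1
    -- elimination with a pivot outside the prime
    have step : ∀ {B : Type u} [CommRing B] [IsNoetherianRing B] (φ : Matrix ι κ B) (Q : Ideal B)
        (_ : Q ∈ (J φ).minimalPrimes) (i₀ : ι) (j₀ : κ) (_ : φ i₀ j₀ ∉ Q),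
        Q.height + (n + 1 : ℕ) ≤ Fintype.card κ + 1 := by
      intro B _ _ φ Q hQ i₀ j₀ hij
      have cκ : 0 < Fintype.card κ := Fintype.card_pos_iff.2 ⟨j₀⟩
      obtain ⟨q, hq⟩ : ∃ q, Fintype.card κ = q + 1 := ⟨_, (Nat.succ_pred_eq_of_pos cκ).symm⟩
      let e : Option (Fin n) ≃ ι :=
        (finSuccEquiv' (Fintype.equivFinOfCardEq hn i₀)).symm.trans (Fintype.equivFinOfCardEq hn).symm
      let f : Option (Fin q) ≃ κ :=
        (finSuccEquiv' (Fintype.equivFinOfCardEq hq j₀)).symm.trans (Fintype.equivFinOfCardEq hq).symm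
      have he : e none = i₀ := by simp [e]
      have hf : f none = j₀ := by simp [f]
      have h1 : Q ∈ (J (el (φ.submatrix e f))).minimalPrimes := by
        apply mem_minimalPrimes_el
        · rw [J_submatrix]; exact hQ
        · rw [Matrix.submatrix_apply, he, hf]; exact hij
      have h2 := ih (ι := Fin n) (κ := Fin q) (by simp) (by simp; omega) _ Q h1
      rw [hq]
      rw [Fintype.card_fin] at h2
      push_cast at h2 ⊢
      rw [← add_assoc]
      gcongr
    by_cases hex : ∃ i j, φ i j ∉ P
    · obtain ⟨i, j, hij⟩ := hex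
      exact step φ P hP i j hij
    · push Not at hex
      rcases Nat.eq_zero_or_pos n with h0 | h0
      · -- one row: Krull
        subst h0
        obtain ⟨i₀, hi₀⟩ := Fintype.card_eq_one_iff.1 hn
        have hJ : J φ = Ideal.span (Set.range (φ i₀)) := by
          ext s
          rw [Ideal.mem_span_range_iff_exists_fun]
          constructor
          · rintro ⟨ψ, h⟩
            refine ⟨fun j => ψ j i₀, ?_⟩
            have h2 := congrFun (congrFun h i₀) i₀
            rw [Matrix.mul_apply, Matrix.smul_apply, Matrix.one_apply_eq, smul_eq_mul, mul_one] at h2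
            rw [← h2]
            exact Finset.sum_congr rfl fun _ _ => mul_comm _ _
          · rintro ⟨c, hc⟩
            refine ⟨Matrix.of fun j _ => c j, ?_⟩
            ext i i'
            rw [hi₀ i, hi₀ i', Matrix.mul_apply, Matrix.smul_apply, Matrix.one_apply_eq,
              smul_eq_mul, mul_one, ← hc]
            exact Finset.sum_congr rfl fun _ _ => mul_comm _ _
        rw [hJ] at hP
        have h3 := Ideal.height_le_card_of_mem_minimalPrimes_span (Set.finite_range (φ i₀)) hP
        have h4 : Nat.card (Set.range (φ i₀)) ≤ Fintype.card κ := by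
          have := Finite.card_range_le (φ i₀)
          rwa [Nat.card_eq_fintype_card (α := κ)] at this
        simp only [zero_add, Nat.cast_one]
        gcongr
        refine h3.trans ?_
        rw [← Nat.card_coe_set_eq]
        exact_mod_cast h4
      · -- at least two rows
        have cκ : 0 < Fintype.card κ := by omega
        obtain ⟨j₀⟩ := Fintype.card_pos_iff.1 cκ
        obtain ⟨i₀, i₁, hne⟩ := Fintype.exists_pair_of_one_lt_card (α := ι) (by omega)
        have h1 := map_mem_minimalPrimes_pert φ i₀ j₀ hP hex i₁ hne.symm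
        have h2 := step (pert φ i₀ j₀) _ h1 i₀ j₀ (by
          rw [pert_apply, if_pos ⟨rfl, rfl⟩]
          intro h
          rw [Ideal.mem_map_C_iff] at h
          have h1 := h 1
          rw [coeff_add, coeff_C_succ, coeff_X_one, zero_add] at h1
          exact hPp.ne_top ((Ideal.eq_top_iff_one _).2 h1))
        refine le_trans ?_ h2
        gcongr
        exact height_le_height_map_C P

end main

end H18H
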