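import Pool.Agent.H18H.RegRange

/-! # Modules of maximal depth over a regular local ring are free -/

set_option autoImplicit false
set_option linter.unusedSectionVars false
set_option linter.style.haveILetI false

namespace H18H

open RingTheory.Sequence IsLocalRing
open scoped Pointwise

universe u v

/-- If the maximal ideal is generated by a sequence which is weakly regular on the finite module
`P`, then `P` is free. -/
theorem free_of_isWeaklyRegular {A : Type u} [CommRing A] [IsLocalRing A] [IsNoetherianRing A]
    (xs : List A) (hxs : Ideal.ofList xs = maximalIdeal A) (P : Type v) [AddCommGroup P]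
    [Module A P] [Module.Finite A P] (h : IsWeaklyRegular P xs) : Module.Free A P := by
  obtain ⟨q, π, hπ⟩ := Module.Finite.exists_fin' A P
  let K := LinearMap.ker π
  have h1 : Function.Exact (0 : PUnit.{1} →ₗ[A] K) K.subtype := by
    intro x
    constructor
    · intro hx
      exact ⟨PUnit.unit, Subtype.ext hx.symm⟩
    · rintro ⟨_, rfl⟩
      rfl
  have h2 : Function.Exact K.subtype π := by
    intro x
    constructor
    · intro hx
      exact ⟨⟨x, hx⟩, rfl⟩
    · rintro ⟨y, rfl⟩
      exact y.2
  have h3 := map_first_exact_on_four_term_right_exact_of_isSMulRegular_last h1 h2 hπ h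
  -- an element of `K` divisible in the big module is divisible in `K`
  have h4 : ∀ z : K, (z : Fin q → A) ∈ Ideal.ofList xs • (⊤ : Submodule A (Fin q → A)) →
      z ∈ Ideal.ofList xs • (⊤ : Submodule A K) := by
    intro z hz
    have h5 := (h3 (Submodule.Quotient.mk z)).1 (by
      rw [Submodule.mapQ_apply, Submodule.Quotient.mk_eq_zero]
      exact hz)
    obtain ⟨y, hy⟩ := h5
    obtain ⟨y, rfl⟩ := Submodule.Quotient.mk_surjective _ y
    rw [Submodule.mapQ_apply, LinearMap.zero_apply, Submodule.Quotient.mk_zero] at hy
    rw [← Submodule.Quotient.mk_eq_zero]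
    exact hy.symm
  refine Module.free_of_lTensor_residueField_injective K.subtype π hπ h2 ?_
  rw [injective_iff_map_eq_zero]
  intro x hx
  obtain ⟨z, rfl⟩ := TensorProduct.mk_surjective A K (ResidueField A)
    Ideal.Quotient.mk_surjective x
  rw [TensorProduct.mk_apply, LinearMap.lTensor_tmul] at hx
  have h6 : (z : Fin q → A) ∈ LinearMap.ker (TensorProduct.mk A (A ⧸ maximalIdeal A) (Fin q → A) 1) :=
    hx
  rw [LinearMap.ker_tensorProductMk] at h6
  have h7 : z ∈ LinearMap.ker (TensorProduct.mk A (A ⧸ maximalIdeal A) K 1) := by
    rw [LinearMap.ker_tensorProductMk, ← hxs]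
    apply h4
    rw [hxs]
    exact h6
  exact h7

end H18H
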