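import Pool.Agent.Horrocks.Defs

/-! # Matrices, homotopies and ranks of a free resolution -/

set_option autoImplicit false
set_option linter.unusedSectionVars false

namespace H18H

open Matrix Horr

universe u v

section hom

variable {S : Type u} [CommRing S] {M : Type v} [AddCommGroup M] [Module S M]

/-- The matrices of the differentials. -/
noncomputable def DM (F : FreeRes S M) (j : ℕ) : Matrix (Fin (F.rk j)) (Fin (F.rk (j + 1))) S :=
  LinearMap.toMatrix' (F.d j)

lemma DM_mulVec (F : FreeRes S M) (j : ℕ) (v : Fin (F.rk (j + 1)) → S) :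
    DM F j *ᵥ v = F.d j v := by
  rw [DM, LinearMap.toMatrix'_mulVec]

lemma d_d (F : FreeRes S M) (j : ℕ) (v : Fin (F.rk (j + 2)) → S) : F.d j (F.d (j + 1) v) = 0 :=
  (F.exact_succ j).apply_apply_eq_zero v

lemma DM_mul_DM (F : FreeRes S M) (j : ℕ) : DM F j * DM F (j + 1) = 0 := by
  apply Matrix.toLin'.injective
  refine LinearMap.ext fun v => ?_
  simp only [Matrix.toLin'_apply, ← Matrix.mulVec_mulVec, DM_mulVec, d_d, map_zero,
    LinearMap.zero_apply]

lemma map_smul_one {K : Type*} [CommRing K] (φ : S →+* K) (g : S) (n : ℕ) :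
    (g • (1 : Matrix (Fin n) (Fin n) S)).map φ = φ g • 1 := by
  ext i l
  rw [Matrix.map_apply, Matrix.smul_apply, Matrix.smul_apply, smul_eq_mul, smul_eq_mul, map_mul,
    Matrix.one_apply, Matrix.one_apply]
  split_ifs <;> simp

/-- A matrix whose columns are given. -/
lemma exists_matrix {a b c : ℕ} (D : Matrix (Fin a) (Fin b) S) (E : Matrix (Fin a) (Fin c) S)
    (h : ∀ j, ∃ v, D *ᵥ v = fun i => E i j) : ∃ σ : Matrix (Fin b) (Fin c) S, D * σ = E := by
  choose v hv using h
  refine ⟨Matrix.of fun i j => v j i, ?_⟩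
  ext i j
  have := congrFun (hv j) i
  rw [Matrix.mul_apply]
  exact this

lemma hom_zero (F : FreeRes S M) (g : S) (hg : ∀ x : M, g • x = 0) :
    ∃ σ : Matrix (Fin (F.rk 1)) (Fin (F.rk 0)) S, DM F 0 * σ = g • 1 := by
  apply exists_matrix
  intro j
  have h1 : F.aug (g • Pi.single j 1) = 0 := by rw [map_smul, hg]
  obtain ⟨y, hy⟩ := (F.exact_zero _).1 h1
  refine ⟨y, ?_⟩
  rw [DM_mulVec, hy]
  funext i
  simp [Matrix.one_apply, Pi.single_apply]

lemma hom_aux (F : FreeRes S M) (g : S) (hg : ∀ x : M, g • x = 0) (j : ℕ) :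
    ∃ σ : Matrix (Fin (F.rk (j + 1))) (Fin (F.rk j)) S,
      DM F j * σ * DM F j = g • DM F j ∧
      ∃ σ' : Matrix (Fin (F.rk (j + 2))) (Fin (F.rk (j + 1))) S,
        DM F (j + 1) * σ' + σ * DM F j = g • 1 := by
  have key : ∀ (j : ℕ) (σ : Matrix (Fin (F.rk (j + 1))) (Fin (F.rk j)) S),
      DM F j * σ * DM F j = g • DM F j →
      ∃ σ' : Matrix (Fin (F.rk (j + 2))) (Fin (F.rk (j + 1))) S,
        DM F (j + 1) * σ' + σ * DM F j = g • 1 := by
    intro j σ h
    have h2 : ∃ σ' : Matrix (Fin (F.rk (j + 2))) (Fin (F.rk (j + 1))) S,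
        DM F (j + 1) * σ' = g • 1 - σ * DM F j := by
      apply exists_matrix
      intro l
      have h3 : F.d j (fun i => (g • (1 : Matrix (Fin (F.rk (j + 1))) (Fin (F.rk (j + 1))) S) -
          σ * DM F j) i l) = 0 := by
        rw [← DM_mulVec]
        have h4 : DM F j * (g • (1 : Matrix (Fin (F.rk (j + 1))) (Fin (F.rk (j + 1))) S) -
            σ * DM F j) = 0 := by
          rw [Matrix.mul_sub, Matrix.mul_smul, Matrix.mul_one, ← Matrix.mul_assoc, h, sub_self]
        funext i
        exact congrFun (congrFun h4 i) l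
      obtain ⟨y, hy⟩ := (F.exact_succ j _).1 h3
      exact ⟨y, by rw [DM_mulVec, hy]⟩
    obtain ⟨σ', h2⟩ := h2
    exact ⟨σ', by rw [h2, sub_add_cancel]⟩
  induction j with
  | zero =>
    obtain ⟨σ, hσ⟩ := hom_zero F g hg
    have h1 : DM F 0 * σ * DM F 0 = g • DM F 0 := by
      rw [hσ, Matrix.smul_mul, Matrix.one_mul]
    exact ⟨σ, h1, key 0 σ h1⟩
  | succ j ih =>
    obtain ⟨σ, h1, σ', h2⟩ := ih
    have h3 : DM F (j + 1) * σ' * DM F (j + 1) = g • DM F (j + 1) := by
      have : DM F (j + 1) * σ' = g • 1 - σ * DM F j := by rw [← h2, add_sub_cancel_right]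
      rw [this, Matrix.sub_mul, Matrix.mul_assoc, DM_mul_DM, Matrix.mul_zero, sub_zero,
        Matrix.smul_mul, Matrix.one_mul]
    exact ⟨σ', h3, key (j + 1) σ' h3⟩

/-- The alternating sums of the ranks. -/
def rho (b : ℕ → ℕ) : ℕ → ℤ
  | 0 => b 0
  | (j + 1) => b (j + 1) - rho b j

lemma rho_zero (b : ℕ → ℕ) : rho b 0 = b 0 := rfl

lemma rho_succ (b : ℕ → ℕ) (j : ℕ) : rho b (j + 1) = b (j + 1) - rho b j := rfl

/-- Over every field in which some element killing `M` becomes invertible, the rank of the `j`-th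
differential is the alternating sum. -/
theorem rank_DM (F : FreeRes S M) {K : Type*} [Field K] (φ : S →+* K) (g : S)
    (hg : ∀ x : M, g • x = 0) (hφ : φ g ≠ 0) (j : ℕ) :
    (((DM F j).map φ).rank : ℤ) = rho F.rk j := by
  induction j with
  | zero =>
    obtain ⟨σ, hσ⟩ := hom_zero F g hg
    have h1 : (DM F 0).map φ * σ.map φ = φ g • 1 := by
      rw [← Matrix.map_mul, hσ, map_smul_one]
    rw [rho_zero]
    have h2 : Function.Surjective ((DM F 0).map φ).mulVecLin := by
      intro v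
      refine ⟨σ.map φ *ᵥ ((φ g)⁻¹ • v), ?_⟩
      rw [Matrix.mulVecLin_apply, Matrix.mulVec_mulVec, h1, Matrix.smul_mulVec, Matrix.one_mulVec,
        smul_smul, mul_inv_cancel₀ hφ, one_smul]
    rw [Matrix.rank, LinearMap.range_eq_top.2 h2, finrank_top]
    simp
  | succ j ih =>
    obtain ⟨σ, -, σ', h2⟩ := hom_aux F g hg j
    have h1 : (DM F (j + 1)).map φ * σ'.map φ + σ.map φ * (DM F j).map φ = φ g • 1 := by
      rw [← Matrix.map_mul, ← Matrix.map_mul, ← Matrix.map_add _ (map_add φ), h2, map_smul_one]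
    have h3 : (DM F j).map φ * (DM F (j + 1)).map φ = 0 := by
      rw [← Matrix.map_mul, DM_mul_DM, Matrix.map_zero _ (map_zero φ)]
    have h4 : LinearMap.range ((DM F (j + 1)).map φ).mulVecLin =
        LinearMap.ker ((DM F j).map φ).mulVecLin := by
      ext v
      rw [LinearMap.mem_ker, LinearMap.mem_range]
      constructor
      · rintro ⟨w, rfl⟩
        rw [Matrix.mulVecLin_apply, Matrix.mulVecLin_apply, Matrix.mulVec_mulVec, h3,
          Matrix.zero_mulVec]
      · intro hv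
        refine ⟨σ'.map φ *ᵥ ((φ g)⁻¹ • v), ?_⟩
        have h5 := congrArg (fun A => A *ᵥ ((φ g)⁻¹ • v)) h1
        simp only [Matrix.add_mulVec, ← Matrix.mulVec_mulVec] at h5
        rw [Matrix.mulVecLin_apply] at hv ⊢
        rw [Matrix.mulVec_smul (((DM F j).map φ)), hv, smul_zero, Matrix.mulVec_zero, add_zero] at h5
        rw [h5, Matrix.smul_mulVec, Matrix.one_mulVec, smul_smul, mul_inv_cancel₀ hφ, one_smul]
    have h5 := LinearMap.finrank_range_add_finrank_ker ((DM F j).map φ).mulVecLin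
    rw [← h4, Module.finrank_fintype_fun_eq_card, Fintype.card_fin] at h5
    rw [rho_succ, ← ih]
    have h6 : ((DM F j).map φ).rank + ((DM F (j + 1)).map φ).rank = F.rk (j + 1) := h5
    omega

end hom

end H18H
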