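import Pool.Agent.H18H.RegRange
import Pool.Agent.H18H.Hom

/-! # The localization of the polynomial ring at the origin -/

set_option autoImplicit false
set_option linter.unusedSectionVars false
set_option linter.style.haveILetI false

namespace H18H

open MvPolynomial Matrix Horr RingTheory.Sequence IsLocalRing

universe u v w

section

variable (k : Type u) [Field k] (m : ℕ)

/-- The maximal ideal of the origin. -/
noncomputable def mO : Ideal (MvPolynomial (Fin m) k) :=
  RingHom.ker (constantCoeff : MvPolynomial (Fin m) k →+* k)

lemma mem_mO (f : MvPolynomial (Fin m) k) : f ∈ mO k m ↔ constantCoeff f = 0 := Iff.rfl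

instance mO_isMaximal : (mO k m).IsMaximal :=
  RingHom.ker_isMaximal_of_surjective _ fun a => ⟨C a, constantCoeff_C _ a⟩

lemma mO_eq : mO k m = Ideal.ofList (vs k m) := by
  ext f
  have h1 : (vs k m).take m = vs k m := List.take_of_length_le (by rw [vs_length])
  rw [← h1, mem_ofList_take k m m, mem_mO]
  constructor
  · intro h e he
    by_contra h2
    push Not at h2
    have h3 : e = 0 := by
      ext j
      exact h2 j j.2
    rw [h3, mem_support_iff, ← constantCoeff_eq] at he
    exact he h
  · intro h
    by_contra h2
    obtain ⟨j, _, hj⟩ := h 0 (by rw [mem_support_iff, ← constantCoeff_eq]; exact h2)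
    exact hj rfl

lemma X_mem_mO (j : Fin m) : (X j : MvPolynomial (Fin m) k) ∈ mO k m := constantCoeff_X _ _

/-- Killing the first `i` variables. -/
noncomputable def kl (i : ℕ) : MvPolynomial (Fin m) k →ₐ[k] MvPolynomial (Fin m) k :=
  aeval fun j : Fin m => if j.val < i then 0 else X j

lemma kl_X (i : ℕ) (j : Fin m) : kl k m i (X j) = if j.val < i then 0 else X j := by
  rw [kl, aeval_X]

lemma kl_kl (i : ℕ) (f : MvPolynomial (Fin m) k) : kl k m (i + 1) (kl k m i f) = kl k m (i + 1) f := by
  have : (kl k m (i + 1)).comp (kl k m i) = kl k m (i + 1) := by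
    apply MvPolynomial.algHom_ext
    intro j
    rw [AlgHom.comp_apply, kl_X, kl_X]
    split_ifs with h1 h2 h2
    · exact map_zero _
    · omega
    · rw [kl_X, if_pos h2]
    · rw [kl_X, if_neg h2]
  exact congrArg (fun φ => φ f) this

/-- `m` is at most the height of the maximal ideal of the origin. -/
theorem le_height_mO : (m : ℕ∞) ≤ (mO k m).height := by
  have key : ∀ i ≤ m, (i : ℕ∞) ≤ (RingHom.ker (kl k m i)).height := by
    intro i
    induction i with
    | zero => intro _; simp
    | succ i ih =>
      intro hi
      haveI h1 : (RingHom.ker (kl k m i)).IsPrime := RingHom.ker_isPrime _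
      haveI h2 : (RingHom.ker (kl k m (i + 1))).IsPrime := RingHom.ker_isPrime _
      have h3 : RingHom.ker (kl k m i) < RingHom.ker (kl k m (i + 1)) := by
        refine lt_of_le_of_ne ?_ ?_
        · intro f hf
          rw [RingHom.mem_ker] at hf ⊢
          rw [← kl_kl, hf, map_zero]
        · intro h
          have h4 : (X (⟨i, hi⟩ : Fin m) : MvPolynomial (Fin m) k) ∈ RingHom.ker (kl k m (i + 1)) := by
            rw [RingHom.mem_ker, kl_X, if_pos (Nat.lt_succ_self i)]
          rw [← h, RingHom.mem_ker, kl_X, if_neg (lt_irrefl _)] at h4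
          exact X_ne_zero _ h4
      have h4 := Ideal.height_add_one_le_of_lt_of_isPrime h3
      refine le_trans ?_ h4
      push_cast
      gcongr
      exact ih (by omega)
  have h1 := key m le_rfl
  have h2 : RingHom.ker (kl k m m) = mO k m := by
    ext f
    rw [RingHom.mem_ker, mem_mO]
    have : kl k m m f = C (constantCoeff f) := by
      have h3 : kl k m m = (Algebra.ofId k (MvPolynomial (Fin m) k)).comp
          (aeval (fun _ : Fin m => (0 : k))) := by
        apply MvPolynomial.algHom_ext
        intro j
        rw [kl_X, if_pos j.2, AlgHom.comp_apply, aeval_X, map_zero]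
      rw [h3, AlgHom.comp_apply]
      have h4 : (aeval (fun _ : Fin m => (0 : k))) f = constantCoeff f := by
        simp
      rw [h4]
      rfl
    rw [this, C_eq_zero]
  rwa [h2] at h1

variable (A : Type v) [CommRing A] [Algebra (MvPolynomial (Fin m) k) A]

/-- The variables in the local ring. -/
noncomputable def xsA : List A := (vs k m).map (algebraMap (MvPolynomial (Fin m) k) A)

lemma xsA_length : (xsA k m A).length = m := by
  rw [xsA, List.length_map, vs_length]

variable [IsLocalization.AtPrime A (mO k m)]

lemma ofList_xsA [IsLocalRing A] : Ideal.ofList (xsA k m A) = maximalIdeal A := by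
  rw [xsA, ← Ideal.map_ofList, ← mO_eq, IsLocalization.AtPrime.map_eq_maximalIdeal]

lemma xsA_regular (N : Type w) [AddCommGroup N] [Module A N] [Module.Flat A N] :
    IsWeaklyRegular N (xsA k m A) := by
  have h1 : IsWeaklyRegular A (xsA k m A) := by
    haveI : Module.Flat (MvPolynomial (Fin m) k) A :=
      IsLocalization.flat A (mO k m).primeCompl
    exact (isWeaklyRegular_map_algebraMap_iff _ _ (vs k m)).2 (vs_regular k m A)
  have h := h1.isWeaklyRegular_rTensor (M₂ := N)
  exact ((TensorProduct.lid A N).isWeaklyRegular_congr (xsA k m A)).1 h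

end

/-- Exactness is preserved by localization (matrix form). -/
lemma exact_loc {S : Type u} {A : Type v} [CommRing S] [CommRing A] [Algebra S A] (M : Submonoid S)
    [IsLocalization M A] (hM : M ≤ nonZeroDivisors S) {a b c : ℕ} (D : Matrix (Fin a) (Fin b) S)
    (E : Matrix (Fin b) (Fin c) S) (h : ∀ v, D *ᵥ v = 0 → ∃ y, E *ᵥ y = v) (v : Fin b → A)
    (hv : D.map (algebraMap S A) *ᵥ v = 0) : ∃ y, E.map (algebraMap S A) *ᵥ y = v := by
  obtain ⟨s, hs⟩ := IsLocalization.exist_integer_multiples M Finset.univ v
  choose w hw using fun i => hs i (Finset.mem_univ i)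
  have hinj : Function.Injective (algebraMap S A) := IsLocalization.injective A hM
  have hcomp : ∀ {p q : ℕ} (B : Matrix (Fin p) (Fin q) S) (x : Fin q → S),
      B.map (algebraMap S A) *ᵥ (fun i => algebraMap S A (x i)) =
        fun i => algebraMap S A ((B *ᵥ x) i) := by
    intro p q B x
    funext i
    simp only [Matrix.mulVec, dotProduct, Matrix.map_apply, map_sum, map_mul]
  have hw' : (fun i => algebraMap S A (w i)) = algebraMap S A s • v := by
    funext i
    rw [hw i, Pi.smul_apply, smul_eq_mul, Algebra.smul_def]
  have h1 : D *ᵥ w = 0 := by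
    funext i
    apply hinj
    have := congrFun (hcomp D w) i
    rw [hw', Matrix.mulVec_smul, hv, smul_zero] at this
    rw [← this, Pi.zero_apply, Pi.zero_apply, map_zero]
  obtain ⟨y, hy⟩ := h w h1
  refine ⟨fun i => IsLocalization.mk' A (y i) s, ?_⟩
  have hu : IsUnit (algebraMap S A s) := IsLocalization.map_units A s
  have h2 : algebraMap S A s • (E.map (algebraMap S A) *ᵥ fun i => IsLocalization.mk' A (y i) s) =
      algebraMap S A s • v := by
    rw [← Matrix.mulVec_smul, ← hw']
    have h3 : (algebraMap S A s • fun i => IsLocalization.mk' A (y i) s) =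
        fun i => algebraMap S A (y i) := by
      funext i
      rw [Pi.smul_apply, smul_eq_mul, IsLocalization.mk'_spec']
    rw [h3, hcomp, hy]
  funext i
  have h4 := congrFun h2 i
  rw [Pi.smul_apply, Pi.smul_apply, smul_eq_mul, smul_eq_mul] at h4
  exact hu.mul_left_cancel h4

end H18H
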