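import Pool.Agent.HC5.Depth

/-! # Syzygy modules have large depth; the variables of a polynomial ring -/

set_option autoImplicit false
set_option linter.unusedSectionVars false
set_option linter.style.haveILetI false

namespace H18H

open RingTheory.Sequence MvPolynomial
open scoped Pointwise

universe u v

section

variable {S : Type u} [CommRing S]

lemma qmk_eq_zero {M : Type v} [AddCommGroup M] [Module S M] (x : S) (z : M) :
    (Submodule.Quotient.mk z : QuotSMulTop x M) = 0 ↔ ∃ w : M, x • w = z := by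
  rw [Submodule.Quotient.mk_eq_zero, Submodule.mem_smul_pointwise_iff_exists]
  constructor
  · rintro ⟨w, _, hw⟩; exact ⟨w, hw⟩
  · rintro ⟨w, hw⟩; exact ⟨w, Submodule.mem_top, hw⟩

lemma qmap_mk {M N : Type v} [AddCommGroup M] [Module S M] [AddCommGroup N] [Module S N]
    (x : S) (f : M →ₗ[S] N) (z : M) :
    QuotSMulTop.map x f (Submodule.Quotient.mk z) = Submodule.Quotient.mk (f z) := rfl

lemma step_exact (x : S) {A B C D : Type v} [AddCommGroup A] [Module S A]
    [AddCommGroup B] [Module S B] [AddCommGroup C] [Module S C] [AddCommGroup D] [Module S D]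
    (f : B →ₗ[S] A) (g : C →ₗ[S] B) (h : D →ₗ[S] C)
    (hfg : ∀ z, f (g z) = 0) (hA : ∀ a : A, x • a = 0 → a = 0)
    (hB : ∀ z : B, f z = 0 → ∃ y, g y = z) (hC : ∀ z : C, g z = 0 → ∃ y, h y = z)
    (z : QuotSMulTop x C) (hz : QuotSMulTop.map x g z = 0) :
    ∃ y : QuotSMulTop x D, QuotSMulTop.map x h y = z := by
  obtain ⟨z, rfl⟩ := Submodule.Quotient.mk_surjective _ z
  rw [qmap_mk, qmk_eq_zero] at hz
  obtain ⟨w, hw⟩ := hz
  have h1 : f w = 0 := hA _ (by rw [← map_smul, hw, hfg])
  obtain ⟨t, ht⟩ := hB w h1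
  obtain ⟨s, hs⟩ := hC (z - x • t) (by rw [map_sub, map_smul, ht, hw, sub_self])
  refine ⟨Submodule.Quotient.mk s, ?_⟩
  rw [qmap_mk, hs, ← sub_eq_zero, ← Submodule.Quotient.mk_sub, qmk_eq_zero]
  exact ⟨-t, by simp⟩

lemma reg_head {M : Type v} [AddCommGroup M] [Module S M] {x : S} {xs : List S}
    (h : IsWeaklyRegular M (x :: xs)) (a : M) (ha : x • a = 0) : a = 0 := by
  have := ((isWeaklyRegular_cons_iff M x xs).1 h).1
  exact this (by simpa using ha)

/-- The `(n+1)`-st syzygy module has depth at least `n + 1`. -/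
theorem reg_range (n : ℕ) (xs : List S) (hlen : xs.length = n + 1)
    (G : ℕ → Type v) [∀ i, AddCommGroup (G i)] [∀ i, Module S (G i)]
    (d : ∀ i, G (i + 1) →ₗ[S] G i) (hdd : ∀ i z, d i (d (i + 1) z) = 0)
    (hreg : ∀ i, IsWeaklyRegular (G i) xs)
    (hex : ∀ i (z : G (i + 1)), d i z = 0 → ∃ y, d (i + 1) y = z) :
    IsWeaklyRegular (LinearMap.range (d n)) xs := by
  induction n generalizing xs G with
  | zero =>
    obtain ⟨x, xs', rfl⟩ := List.exists_cons_of_length_pos (by omega : 0 < xs.length)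
    have hxs : xs' = [] := by
      rw [List.length_cons] at hlen
      exact List.length_eq_zero_iff.1 (by omega)
    subst hxs
    rw [isWeaklyRegular_cons_iff]
    refine ⟨fun a b hab => ?_, IsWeaklyRegular.nil _ _⟩
    have h1 := ((isWeaklyRegular_cons_iff _ x []).1 (hreg 0)).1
    exact Subtype.ext (h1 (congrArg Subtype.val hab))
  | succ n ih =>
    obtain ⟨x, xs', rfl⟩ := List.exists_cons_of_length_pos (by omega : 0 < xs.length)
    have hlen' : xs'.length = n + 1 := by simpa using hlen
    have hxreg : ∀ i (a : G i), x • a = 0 → a = 0 := fun i a ha => reg_head (hreg i) a ha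
    rw [isWeaklyRegular_cons_iff]
    constructor
    · intro a b hab
      have h1 := ((isWeaklyRegular_cons_iff _ x xs').1 (hreg (n + 1))).1
      exact Subtype.ext (h1 (congrArg Subtype.val hab))
    · have h2 := ih xs' hlen' (fun i => QuotSMulTop x (G (i + 1)))
        (fun i => QuotSMulTop.map x (d (i + 1)))
        (fun i z => by
          obtain ⟨z, rfl⟩ := Submodule.Quotient.mk_surjective _ z
          rw [qmap_mk, qmap_mk, hdd, Submodule.Quotient.mk_zero])
        (fun i => ((isWeaklyRegular_cons_iff _ x xs').1 (hreg (i + 1))).2)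
        (fun i z hz => step_exact x (d i) (d (i + 1)) (d (i + 2)) (hdd i) (hxreg i) (hex i)
          (hex (i + 1)) z hz)
      -- the comparison map
      let f : QuotSMulTop x (LinearMap.range (d (n + 1))) →ₗ[S] QuotSMulTop x (G (n + 1)) :=
        QuotSMulTop.map x (LinearMap.range (d (n + 1))).subtype
      have hf : Function.Injective f := by
        rw [← LinearMap.ker_eq_bot, LinearMap.ker_eq_bot']
        intro z hz
        obtain ⟨⟨z, hz'⟩, rfl⟩ := Submodule.Quotient.mk_surjective _ z
        change QuotSMulTop.map x _ _ = 0 at hz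
        rw [qmap_mk, qmk_eq_zero] at hz
        obtain ⟨w, hw⟩ := hz
        have hw' : x • w = z := hw
        obtain ⟨y, hy⟩ := hz'
        have h3 : d n w = 0 := hxreg n _ (by rw [← map_smul, hw', ← hy, hdd])
        obtain ⟨t, ht⟩ := hex n w h3
        rw [qmk_eq_zero]
        exact ⟨⟨w, ⟨t, ht⟩⟩, Subtype.ext hw'⟩
      have hr : LinearMap.range f = LinearMap.range (QuotSMulTop.map x (d (n + 1))) := by
        ext z
        constructor
        · rintro ⟨y, rfl⟩
          obtain ⟨⟨y, ⟨t, rfl⟩⟩, rfl⟩ := Submodule.Quotient.mk_surjective _ y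
          exact ⟨Submodule.Quotient.mk t, rfl⟩
        · rintro ⟨y, rfl⟩
          obtain ⟨y, rfl⟩ := Submodule.Quotient.mk_surjective _ y
          exact ⟨Submodule.Quotient.mk ⟨d (n + 1) y, ⟨y, rfl⟩⟩, rfl⟩
      have e : QuotSMulTop x (LinearMap.range (d (n + 1))) ≃ₗ[S]
          LinearMap.range (QuotSMulTop.map x (d (n + 1))) :=
        (LinearEquiv.ofInjective f hf).trans (LinearEquiv.ofEq _ _ hr)
      exact (e.isWeaklyRegular_congr xs').2 h2

end

section vars

variable (k : Type u) [Field k] (m : ℕ)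

/-- the list of the variables -/
noncomputable def vs : List (MvPolynomial (Fin m) k) := (List.finRange m).map MvPolynomial.X

lemma vs_length : (vs k m).length = m := by
  simp [vs]

lemma mem_vs (x : MvPolynomial (Fin m) k) : x ∈ vs k m ↔ ∃ j : Fin m, x = X j := by
  unfold vs
  rw [List.mem_map]
  constructor
  · rintro ⟨j, _, hj⟩; exact ⟨j, hj.symm⟩
  · rintro ⟨j, hj⟩; exact ⟨j, List.mem_finRange j, hj.symm⟩

lemma mem_take (i : ℕ) (j : Fin m) :
    j ∈ (List.finRange m).take i ↔ j.val < i := by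
  rw [List.mem_take_iff_getElem]
  constructor
  · rintro ⟨l, hl, h⟩
    rw [List.getElem_finRange] at h
    rw [← h]
    simp only [Fin.cast_mk]
    exact lt_of_lt_of_le hl (min_le_left _ _)
  · intro h
    refine ⟨j.val, ?_, ?_⟩
    · rw [List.length_finRange]
      exact lt_min h j.2
    · rw [List.getElem_finRange]
      rfl

lemma mem_ofList_take (i : ℕ) (f : MvPolynomial (Fin m) k) :
    f ∈ Ideal.ofList ((vs k m).take i) ↔ ∀ e ∈ f.support, ∃ j : Fin m, j.val < i ∧ e j ≠ 0 := by
  have h1 : Ideal.ofList ((vs k m).take i) =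
      Ideal.span (MvPolynomial.X '' {j : Fin m | j.val < i} : Set (MvPolynomial (Fin m) k)) := by
    unfold Ideal.ofList vs
    congr 1
    ext x
    rw [← List.map_take]
    simp only [Set.mem_ofPred_eq, List.mem_map, Set.mem_image]
    constructor
    · rintro ⟨j, hj, hx⟩; exact ⟨j, (mem_take m i j).1 hj, hx⟩
    · rintro ⟨j, hj, hx⟩; exact ⟨j, (mem_take m i j).2 hj, hx⟩
  rw [h1, mem_ideal_span_X_image]
  rfl

lemma vs_regular_self : IsWeaklyRegular (MvPolynomial (Fin m) k) (vs k m) := by
  constructor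
  intro i hi
  have hi5 : i < m := by rw [vs_length] at hi; exact hi
  have hget : (vs k m)[i]'hi = X (⟨i, hi5⟩ : Fin m) := by
    simp [vs]
  suffices hsuff : IsSMulRegular (MvPolynomial (Fin m) k ⧸ (Ideal.ofList ((vs k m).take i) •
      (⊤ : Submodule (MvPolynomial (Fin m) k) (MvPolynomial (Fin m) k))))
      (X (⟨i, hi5⟩ : Fin m) : MvPolynomial (Fin m) k) by
    rw [hget]
    exact hsuff
  have hsm : ∀ f : MvPolynomial (Fin m) k, f ∈ (Ideal.ofList ((vs k m).take i) •
      (⊤ : Submodule (MvPolynomial (Fin m) k) (MvPolynomial (Fin m) k))) ↔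
      ∀ e ∈ f.support, ∃ j : Fin m, j.val < i ∧ e j ≠ 0 := by
    intro f
    rw [← mem_ofList_take k m i, smul_eq_mul, Ideal.mul_top]
  intro a b hab
  obtain ⟨a, rfl⟩ := Submodule.Quotient.mk_surjective _ a
  obtain ⟨b, rfl⟩ := Submodule.Quotient.mk_surjective _ b
  simp only at hab
  rw [← Submodule.Quotient.mk_smul, ← Submodule.Quotient.mk_smul, Submodule.Quotient.eq,
    ← smul_sub, hsm] at hab
  rw [Submodule.Quotient.eq, hsm]
  intro e he
  have h2 : e + Finsupp.single (⟨i, hi5⟩ : Fin m) 1 ∈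
      ((X (⟨i, hi5⟩ : Fin m) : MvPolynomial (Fin m) k) • (a - b)).support := by
    rw [smul_eq_mul, mul_comm, mem_support_iff, coeff_mul_X]
    exact mem_support_iff.1 he
  obtain ⟨j, hj, hne⟩ := hab _ h2
  refine ⟨j, hj, ?_⟩
  have h3 : (⟨i, hi5⟩ : Fin m) ≠ j := by
    intro h
    rw [← h] at hj
    simp at hj
  rw [Finsupp.add_apply, Finsupp.single_eq_of_ne (by exact fun h => h3 h.symm), add_zero] at hne
  exact hne

theorem vs_regular (N : Type v) [AddCommGroup N] [Module (MvPolynomial (Fin m) k) N]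
    [Module.Flat (MvPolynomial (Fin m) k) N] : IsWeaklyRegular N (vs k m) := by
  have h := (vs_regular_self k m).isWeaklyRegular_rTensor (M₂ := N)
  exact ((TensorProduct.lid (MvPolynomial (Fin m) k) N).isWeaklyRegular_congr (vs k m)).1 h

end vars

end H18H
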