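import Mathlib

/-! # Systems of parameters

Let `A` be a noetherian local ring and `M` a finite module having a weakly regular sequence of
length `m` in the maximal ideal.

* `le_dim`: every associated prime `P` of `M` has `m ≤ dim A/P`;
* `exchange`: every `M`-regular element of the maximal ideal starts a regular sequence of length `m`;
* `sop_regular`: `m` elements of the maximal ideal whose ideal together with the annihilator of `M` is
  primary to the maximal ideal form a weakly regular sequence on `M`;
* `exists_params`: an ideal which is primary to the maximal ideal (of height `m`) with generators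
  `f_1, …, f_(m+s)` has a second system of generators `c_1, …, c_m, f_(m+1), …, f_(m+s)` such that
  the ideal of `c_1, …, c_m` is primary to the maximal ideal.
-/

set_option autoImplicit false
set_option linter.unusedSectionVars false
set_option linter.style.haveILetI false

namespace H18H

open RingTheory.Sequence IsLocalRing

universe u v

section depth

variable {A : Type u} [CommRing A] [IsLocalRing A] [IsNoetherianRing A]

open scoped Pointwise in
lemma qmk_eq_zero' {M : Type v} [AddCommGroup M] [Module A M] (x : A) (z : M) :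
    (Submodule.Quotient.mk z : QuotSMulTop x M) = 0 ↔ ∃ w : M, x • w = z := by
  rw [Submodule.Quotient.mk_eq_zero, Submodule.mem_smul_pointwise_iff_exists]
  constructor
  · rintro ⟨w, _, hw⟩; exact ⟨w, hw⟩
  · rintro ⟨w, hw⟩; exact ⟨w, Submodule.mem_top, hw⟩

/-- If `P` is an associated prime of `M` and `x` is regular on `M` then `M/xM` has an associated
prime which contains `P` and `x`. -/
lemma exists_ass_quot {M : Type v} [AddCommGroup M] [Module A M] [Module.Finite A M] (x : A)
    (hx : x ∈ maximalIdeal A) (hreg : IsSMulRegular M x) (P : Ideal A)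
    (hP : P ∈ associatedPrimes A M) :
    ∃ Q ∈ associatedPrimes A (QuotSMulTop x M), P ≤ Q ∧ x ∈ Q := by
  obtain ⟨hPp, u₀, hu₀⟩ := (isAssociatedPrime_iff).1 hP
  have hu₀' : u₀ ≠ 0 := by
    rintro rfl
    apply hPp.ne_top
    rw [hu₀, Ideal.eq_top_iff_one, Submodule.mem_colon_singleton]
    simp
  -- the elements killed by `P`
  let N : Submodule A M :=
    { carrier := {u | ∀ p ∈ P, p • u = 0}
      zero_mem' := by intro p _; simp
      add_mem' := by
        intro a b ha hb p hp
        rw [smul_add, ha p hp, hb p hp, add_zero]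
      smul_mem' := by
        intro c a ha p hp
        rw [smul_comm, ha p hp, smul_zero] }
  have hN₀ : u₀ ∈ N := by
    intro p hp
    rw [hu₀, Submodule.mem_colon_singleton] at hp
    simpa using hp
  have hex : ∃ u ∈ N, ∀ w : M, x • w ≠ u := by
    by_contra hcon
    push Not at hcon
    have hle : N ≤ (maximalIdeal A) • N := by
      intro u hu
      obtain ⟨w, hw⟩ := hcon u hu
      rw [← hw]
      refine Submodule.smul_mem_smul hx ?_
      intro p hp
      apply hreg
      change x • (p • w) = x • (0 : M)
      rw [smul_comm, hw, hu p hp, smul_zero]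
    have hbot : N = ⊥ := Submodule.eq_bot_of_le_smul_of_le_jacobson_bot (maximalIdeal A) N
      (IsNoetherian.noetherian N) hle (maximalIdeal_le_jacobson _)
    rw [hbot, Submodule.mem_bot] at hN₀
    exact hu₀' hN₀
  obtain ⟨u, hu, hux⟩ := hex
  have hne : (Submodule.Quotient.mk u : QuotSMulTop x M) ≠ 0 := by
    rw [Ne, qmk_eq_zero']
    rintro ⟨w, hw⟩
    exact hux w hw
  obtain ⟨Q, hQ, hle⟩ := exists_le_isAssociatedPrime_of_isNoetherianRing A
    (Submodule.Quotient.mk u : QuotSMulTop x M) hne
  refine ⟨Q, hQ, ?_, ?_⟩
  · intro p hp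
    apply hle
    rw [Submodule.mem_colon_singleton, ← Submodule.Quotient.mk_smul, hu p hp,
      Submodule.Quotient.mk_zero]
    exact Submodule.zero_mem _
  · apply hle
    rw [Submodule.mem_colon_singleton, Submodule.mem_bot, ← Submodule.Quotient.mk_smul,
      qmk_eq_zero']
    exact ⟨u, rfl⟩

/-- The depth is at most the dimension of every associated prime. -/
theorem le_dim (xs : List A) (hxs : ∀ x ∈ xs, x ∈ maximalIdeal A) (M : Type v) [AddCommGroup M]
    [Module A M] [Module.Finite A M] (h : IsWeaklyRegular M xs) (P : Ideal A)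
    (hP : P ∈ associatedPrimes A M) : (xs.length : WithBot ℕ∞) ≤ ringKrullDim (A ⧸ P) := by
  induction xs generalizing M P with
  | nil =>
    have : P.IsPrime := hP.1
    have : Nontrivial (A ⧸ P) := Ideal.Quotient.nontrivial_iff.2 hP.1.ne_top
    simpa using (ringKrullDim_nonneg_of_nontrivial (R := A ⧸ P))
  | cons x xs ih =>
    obtain ⟨h1, h2⟩ := (isWeaklyRegular_cons_iff M x xs).1 h
    obtain ⟨Q, hQ, hPQ, hxQ⟩ := exists_ass_quot x (hxs x (by simp)) h1 P hP
    have ih' := ih (fun y hy => hxs y (by simp [hy])) (QuotSMulTop x M) h2 Q hQ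
    have hxP : x ∉ P := by
      intro hxP
      have h3 : x ∈ ⋃ p ∈ associatedPrimes A M, (p : Set A) := by
        simp only [Set.mem_iUnion]
        exact ⟨P, hP, hxP⟩
      rw [biUnion_associatedPrimes_eq_compl_regular] at h3
      exact h3 h1
    have hPp : P.IsPrime := hP.1
    have hQp : Q.IsPrime := hQ.1
    have h4 : ringKrullDim (A ⧸ Q) + 1 ≤ ringKrullDim (A ⧸ P) := by
      refine ringKrullDim_succ_le_of_surjective (Ideal.Quotient.factor hPQ)
        (Ideal.Quotient.factor_surjective hPQ) (r := Ideal.Quotient.mk P x) ?_ ?_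
      · apply mem_nonZeroDivisors_of_ne_zero
        rw [Ne, Ideal.Quotient.eq_zero_iff_mem]
        exact hxP
      · rw [Ideal.Quotient.factor_mk, Ideal.Quotient.eq_zero_iff_mem]
        exact hxQ
    refine le_trans ?_ h4
    rw [List.length_cons]
    push_cast
    exact add_le_add_left ih' 1

/-- An element outside all associated primes is regular. -/
lemma regular_of_notMem {M : Type v} [AddCommGroup M] [Module A M] (y : A)
    (h : ∀ P ∈ associatedPrimes A M, y ∉ P) : IsSMulRegular M y := by
  by_contra hcon
  have h3 : y ∈ ⋃ p ∈ associatedPrimes A M, (p : Set A) := by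
    rw [biUnion_associatedPrimes_eq_compl_regular]
    exact hcon
  simp only [Set.mem_iUnion] at h3
  obtain ⟨P, hP, hyP⟩ := h3
  exact h P hP hyP

lemma notMem_of_regular {M : Type v} [AddCommGroup M] [Module A M] (y : A)
    (h : IsSMulRegular M y) (P : Ideal A) (hP : P ∈ associatedPrimes A M) : y ∉ P := by
  intro hyP
  have h3 : y ∈ ⋃ p ∈ associatedPrimes A M, (p : Set A) := by
    simp only [Set.mem_iUnion]
    exact ⟨P, hP, hyP⟩
  rw [biUnion_associatedPrimes_eq_compl_regular] at h3
  exact h3 h

/-- A common regular element. -/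
lemma exists_common {M : Type v} [AddCommGroup M] [Module A M] [Module.Finite A M] (x c x' : A)
    (hx : x ∈ maximalIdeal A) (hx' : x' ∈ maximalIdeal A)
    (hxr : IsSMulRegular M x) (hcr : IsSMulRegular M c)
    (hx'r : IsSMulRegular (QuotSMulTop x M) x') :
    ∃ y ∈ maximalIdeal A, IsSMulRegular (QuotSMulTop x M) y ∧ IsSMulRegular (QuotSMulTop c M) y := by
  classical
  by_contra hcon
  push Not at hcon
  -- no associated prime is the maximal ideal
  have h1 : ∀ P ∈ associatedPrimes A (QuotSMulTop x M), ¬ maximalIdeal A ≤ P := by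
    intro P hP hle
    exact notMem_of_regular x' hx'r P hP (hle hx')
  have h2 : ∀ P ∈ associatedPrimes A (QuotSMulTop c M), ¬ maximalIdeal A ≤ P := by
    intro P hP hle
    obtain ⟨hPp, u, hu⟩ := (isAssociatedPrime_iff).1 hP
    obtain ⟨u, rfl⟩ := Submodule.Quotient.mk_surjective _ u
    have hu0 : ∀ w : M, c • w ≠ u := by
      intro w hw
      apply hPp.ne_top
      rw [hu, Ideal.eq_top_iff_one, Submodule.mem_colon_singleton, one_smul, Submodule.mem_bot,
        qmk_eq_zero']
      exact ⟨w, hw⟩
    have hkill : ∀ i ∈ maximalIdeal A, ∃ w : M, c • w = i • u := by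
      intro i hi
      have h3 := hle hi
      rw [hu, Submodule.mem_colon_singleton, Submodule.mem_bot, ← Submodule.Quotient.mk_smul,
        qmk_eq_zero'] at h3
      exact h3
    obtain ⟨v, hv⟩ := hkill x hx
    have hv0 : (Submodule.Quotient.mk v : QuotSMulTop x M) ≠ 0 := by
      rw [Ne, qmk_eq_zero']
      rintro ⟨w, hw⟩
      apply hu0 w
      apply hxr
      change x • (c • w) = x • u
      rw [smul_comm, hw, hv]
    apply hv0
    apply hx'r
    change x' • (Submodule.Quotient.mk v : QuotSMulTop x M) = x' • (0 : QuotSMulTop x M)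
    rw [smul_zero, ← Submodule.Quotient.mk_smul, qmk_eq_zero']
    obtain ⟨w, hw⟩ := hkill x' hx'
    refine ⟨w, ?_⟩
    apply hcr
    change c • (x • w) = c • (x' • v)
    rw [smul_comm c x w, hw, smul_comm c x' v, hv, smul_comm]
  have hfin : (associatedPrimes A (QuotSMulTop x M) ∪ associatedPrimes A (QuotSMulTop c M)).Finite :=
    (associatedPrimes.finite A _).union (associatedPrimes.finite A _)
  have h3 : ((maximalIdeal A : Ideal A) : Set A) ⊆ ⋃ P ∈ (hfin.toFinset : Set (Ideal A)), (P : Set A) := by
    intro y hy
    by_contra hny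
    simp only [Set.Finite.coe_toFinset, Set.mem_iUnion, not_exists] at hny
    exact hcon y hy (regular_of_notMem y fun P hP => hny P (Or.inl hP))
      (regular_of_notMem y fun P hP => hny P (Or.inr hP))
  rw [Ideal.subset_union_prime (f := fun P : Ideal A => P) ⊤ ⊤ (by
    intro P hP _ _
    rw [Set.Finite.mem_toFinset] at hP
    rcases hP with h | h <;> exact h.1)] at h3
  obtain ⟨P, hP, hle⟩ := h3
  rw [Set.Finite.mem_toFinset] at hP
  rcases hP with h | h
  · exact h1 P h hle
  · exact h2 P h hle

/-- Every regular element starts a regular sequence of the same length. -/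
theorem exchange (m : ℕ) (M : Type v) [AddCommGroup M] [Module A M] [Module.Finite A M]
    (xs : List A) (hlen : xs.length = m + 1) (hxs : ∀ x ∈ xs, x ∈ maximalIdeal A)
    (h : IsWeaklyRegular M xs) (c : A) (hc : c ∈ maximalIdeal A) (hcr : IsSMulRegular M c) :
    ∃ zs : List A, zs.length = m ∧ (∀ z ∈ zs, z ∈ maximalIdeal A) ∧ IsWeaklyRegular M (c :: zs) := by
  induction m generalizing M xs c with
  | zero =>
    refine ⟨[], rfl, by simp, ?_⟩
    rw [isWeaklyRegular_cons_iff]
    exact ⟨hcr, IsWeaklyRegular.nil _ _⟩
  | succ m ih =>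
    match xs, hlen with
    | x :: x' :: xs', hlen =>
      have hx : x ∈ maximalIdeal A := hxs x (by simp)
      have hx' : x' ∈ maximalIdeal A := hxs x' (by simp)
      obtain ⟨h1, h2⟩ := (isWeaklyRegular_cons_iff M x _).1 h
      have h2' := ((isWeaklyRegular_cons_iff _ x' _).1 h2).1
      obtain ⟨y, hy, hy1, hy2⟩ := exists_common x c x' hx hx' h1 hcr h2'
      obtain ⟨zs, hz1, hz2, hz3⟩ := ih (QuotSMulTop x M) (x' :: xs')
        (by simpa using hlen) (fun z hz => hxs z (by
          rcases List.mem_cons.1 hz with h | h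
          · simp [h]
          · simp [h])) h2 y hy hy1
      have h4 : IsWeaklyRegular M (x :: y :: zs) := (isWeaklyRegular_cons_iff M x _).2 ⟨h1, hz3⟩
      have h5 : IsWeaklyRegular M (y :: x :: zs) :=
        IsLocalRing.isWeaklyRegular_of_perm_of_subset_maximalIdeal h4 (List.Perm.swap _ _ _) (by
          intro r hr
          rcases List.mem_cons.1 hr with rfl | hr
          · exact hx
          rcases List.mem_cons.1 hr with rfl | hr
          · exact hy
          exact hz2 r hr)
      obtain ⟨h6, h7⟩ := (isWeaklyRegular_cons_iff M y _).1 h5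
      have h8 : IsWeaklyRegular M [c, y] :=
        (isWeaklyRegular_cons_iff M c _).2 ⟨hcr, (isWeaklyRegular_cons_iff _ y _).2
          ⟨hy2, IsWeaklyRegular.nil _ _⟩⟩
      have h9 : IsWeaklyRegular M [y, c] :=
        IsLocalRing.isWeaklyRegular_of_perm_of_subset_maximalIdeal h8 (List.Perm.swap _ _ _) (by
          intro r hr
          rcases List.mem_cons.1 hr with rfl | hr
          · exact hc
          rcases List.mem_cons.1 hr with rfl | hr
          · exact hy
          simp at hr)
      have h10 := ((isWeaklyRegular_cons_iff _ c _).1 ((isWeaklyRegular_cons_iff M y _).1 h9).2).1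
      obtain ⟨ws, hw1, hw2, hw3⟩ := ih (QuotSMulTop y M) (x :: zs) (by simp [hz1])
        (fun z hz => by
          rcases List.mem_cons.1 hz with rfl | h
          · exact hx
          · exact hz2 z h) h7 c hc h10
      refine ⟨y :: ws, by simp [hw1], ?_, ?_⟩
      · intro z hz
        rcases List.mem_cons.1 hz with rfl | h
        · exact hy
        · exact hw2 z h
      · have h11 : IsWeaklyRegular M (y :: c :: ws) := (isWeaklyRegular_cons_iff M y _).2 ⟨h6, hw3⟩
        exact IsLocalRing.isWeaklyRegular_of_perm_of_subset_maximalIdeal h11 (List.Perm.swap _ _ _)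
          (by
            intro r hr
            rcases List.mem_cons.1 hr with rfl | hr
            · exact hy
            rcases List.mem_cons.1 hr with rfl | hr
            · exact hc
            exact hw2 r hr)

/-- Elements which generate an ideal primary to the maximal ideal modulo the annihilator form a
weakly regular sequence if their number is (at most) the depth. -/
theorem sop_regular (m : ℕ) (M : Type v) [AddCommGroup M] [Module A M] [Module.Finite A M]
    (xs : List A) (hlen : xs.length = m) (hxs : ∀ x ∈ xs, x ∈ maximalIdeal A)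
    (h : IsWeaklyRegular M xs) (cs : List A) (hcs : cs.length = m)
    (hcm : ∀ c ∈ cs, c ∈ maximalIdeal A)
    (hprim : ∀ P : Ideal A, P.IsPrime → Module.annihilator A M ≤ P → (∀ c ∈ cs, c ∈ P) →
      P = maximalIdeal A) : IsWeaklyRegular M cs := by
  induction m generalizing M xs cs with
  | zero =>
    obtain rfl : cs = [] := List.length_eq_zero_iff.1 hcs
    exact IsWeaklyRegular.nil _ _
  | succ m ih =>
    match cs, hcs with
    | c :: cs', hcs =>
      have hc : c ∈ maximalIdeal A := hcm c (by simp)
      have hcr : IsSMulRegular M c := by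
        refine regular_of_notMem c ?_
        intro P hP hcP
        have hPp : P.IsPrime := hP.1
        have h1 := le_dim xs hxs M h P hP
        have hloc : IsLocalRing (A ⧸ P) :=
          IsLocalRing.of_surjective' (Ideal.Quotient.mk P) Ideal.Quotient.mk_surjective
        -- the maximal ideal of `A/P` is minimal over the ideal of `cs'`
        have h2 : maximalIdeal (A ⧸ P) ∈ (Ideal.span ((Ideal.Quotient.mk P) '' {c | c ∈ cs'})).minimalPrimes := by
          refine ⟨⟨(maximalIdeal.isMaximal _).isPrime, ?_⟩, ?_⟩
          · rw [Ideal.span_le]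
            rintro _ ⟨d, hd, rfl⟩
            have hd' : d ∈ maximalIdeal A := hcm d (by simp [show d ∈ cs' from hd])
            rw [SetLike.mem_coe, mem_maximalIdeal, mem_nonunits_iff]
            intro hu
            obtain ⟨e, he⟩ := hu.exists_right_inv
            obtain ⟨e, rfl⟩ := Ideal.Quotient.mk_surjective e
            have h3 : d * e - 1 ∈ P := by
              rw [← Ideal.Quotient.eq_zero_iff_mem, map_sub, map_mul, he, map_one, sub_self]
            have h4 := Ideal.sub_mem _ (Ideal.mul_mem_right e _ hd')
              (IsLocalRing.le_maximalIdeal hPp.ne_top h3)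
            rw [sub_sub_cancel] at h4
            exact (Ideal.ne_top_iff_one _).1 (maximalIdeal.isMaximal A).ne_top h4
          · rintro Q ⟨hQ, hleQ⟩ hQle
            have h3 : Q.comap (Ideal.Quotient.mk P) = maximalIdeal A := by
              refine hprim _ (hQ.comap _) ?_ ?_
              · refine le_trans ?_ (Ideal.le_comap_of_map_le
                  (by rw [Ideal.map_quotient_self]; exact bot_le) : P ≤ _)
                rw [← Submodule.annihilator_top]
                exact IsAssociatedPrime.annihilator_le hP
              · intro d hd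
                rw [Ideal.mem_comap]
                rcases List.mem_cons.1 hd with rfl | hd
                · rw [Ideal.Quotient.eq_zero_iff_mem.2 hcP]
                  exact Q.zero_mem
                · exact hleQ (Ideal.subset_span ⟨d, hd, rfl⟩)
            intro z hz
            obtain ⟨z, rfl⟩ := Ideal.Quotient.mk_surjective z
            have h4 : z ∈ maximalIdeal A := by
              rw [mem_maximalIdeal, mem_nonunits_iff]
              intro hu
              exact (mem_maximalIdeal _).1 hz (hu.map _)
            rw [← h3] at h4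
            exact h4
        have hfin : ((Ideal.Quotient.mk P) '' {c | c ∈ cs'}).Finite :=
          (List.finite_toSet cs').image _
        have h3 := Ideal.height_le_card_of_mem_minimalPrimes_span hfin h2
        have h4 : ((Ideal.Quotient.mk P) '' {c | c ∈ cs'}).ncard ≤ m := by
          refine (Set.ncard_image_le (List.finite_toSet cs')).trans ?_
          classical
          have h5 : {c | c ∈ cs'} = (cs'.toFinset : Set A) := by ext; simp
          rw [h5, Set.ncard_coe_finset]
          refine (List.toFinset_card_le cs').trans ?_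
          simp at hcs
          omega
        rw [← IsLocalRing.maximalIdeal_height_eq_ringKrullDim (R := A ⧸ P), hlen] at h1
        have h5 : ((m + 1 : ℕ) : ℕ∞) ≤ (maximalIdeal (A ⧸ P)).height := by exact_mod_cast h1
        have h6 := h5.trans (h3.trans (by exact_mod_cast h4 : _ ≤ ((m : ℕ) : ℕ∞)))
        have h7 : m + 1 ≤ m := by exact_mod_cast h6
        omega
      obtain ⟨zs, hz1, hz2, hz3⟩ := exchange m M xs hlen hxs h c hc hcr
      obtain ⟨_, hz4⟩ := (isWeaklyRegular_cons_iff M c _).1 hz3
      refine (isWeaklyRegular_cons_iff M c _).2 ⟨hcr, ?_⟩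
      refine ih (QuotSMulTop c M) zs hz1 hz2 hz4 cs' (by simpa using hcs)
        (fun d hd => hcm d (by simp [hd])) ?_
      intro P hP hann hcP
      refine hprim P hP ?_ ?_
      · refine le_trans ?_ hann
        exact LinearMap.annihilator_le_of_surjective (Submodule.mkQ _) (Submodule.mkQ_surjective _)
      · intro d hd
        rcases List.mem_cons.1 hd with rfl | hd
        · exact hann (QuotSMulTop.mem_annihilator M d)
        · exact hcP d hd

end depth

section params

/-- Prime avoidance for cosets (Davis). -/
lemma davis {A : Type u} [CommRing A] (T : Finset (Ideal A)) (hp : ∀ P ∈ T, P.IsPrime)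
    (hanti : ∀ P ∈ T, ∀ Q ∈ T, P ≤ Q → P = Q) (a : A) (J : Ideal A)
    (h : ∀ P ∈ T, ¬ (a ∈ P ∧ J ≤ P)) : ∃ t ∈ J, ∀ P ∈ T, a + t ∉ P := by
  classical
  obtain ⟨T1, hT1⟩ : ∃ T1 : Finset (Ideal A), T1 = T.filter (fun P => a ∈ P) := ⟨_, rfl⟩
  obtain ⟨T2, hT2⟩ : ∃ T2 : Finset (Ideal A), T2 = T.filter (fun P => a ∉ P) := ⟨_, rfl⟩
  obtain ⟨K, hK⟩ : ∃ K : Ideal A, K = ∏ P ∈ T2, P := ⟨_, rfl⟩
  have hKle : ∀ P ∈ T2, K ≤ P := by
    intro P hP
    have h0 : P * ∏ Q ∈ T2.erase P, Q = ∏ Q ∈ T2, Q := Finset.mul_prod_erase T2 (fun Q : Ideal A => Q) hP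
    rw [hK, ← h0]
    exact Ideal.mul_le_left (I := P) (J := ∏ Q ∈ T2.erase P, Q)
  have h1 : ¬ (((J * K : Ideal A) : Set A) ⊆ ⋃ P ∈ (T1 : Set (Ideal A)), (P : Set A)) := by
    rw [Ideal.subset_union_prime (f := fun P : Ideal A => P) ⊤ ⊤ (by
      intro P hP _ _
      rw [hT1] at hP
      exact hp P (Finset.mem_filter.1 hP).1)]
    rintro ⟨P, hP, hle⟩
    rw [hT1] at hP
    obtain ⟨hPT, haP⟩ := Finset.mem_filter.1 hP
    have hPp := hp P hPT
    rcases hPp.mul_le.1 hle with h2 | h2
    · exact h P hPT ⟨haP, h2⟩
    · rw [hK] at h2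
      obtain ⟨Q, hQ, hQP⟩ := (hPp.prod_le).1 h2
      rw [hT2] at hQ
      obtain ⟨hQT, haQ⟩ := Finset.mem_filter.1 hQ
      obtain rfl := hanti Q hQT P hPT hQP
      exact haQ haP
  rw [Set.not_subset] at h1
  obtain ⟨t, ht, ht'⟩ := h1
  simp only [Set.mem_iUnion, not_exists] at ht'
  have htJ : t ∈ J := Ideal.mul_le_left ht
  have htK : t ∈ K := Ideal.mul_le_right ht
  refine ⟨t, htJ, ?_⟩
  intro P hP hmem
  by_cases ha : a ∈ P
  · apply ht' P (by rw [hT1]; exact Finset.mem_coe.2 (Finset.mem_filter.2 ⟨hP, ha⟩))
    have := P.sub_mem hmem ha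
    rwa [add_sub_cancel_left] at this
  · apply ha
    have h2 : t ∈ P := hKle P (by rw [hT2]; exact Finset.mem_filter.2 ⟨hP, ha⟩) htK
    have := P.sub_mem hmem h2
    rwa [add_sub_cancel_right] at this

variable {A : Type u} [CommRing A] [IsNoetherianRing A]

lemma params_aux (𝔪 : Ideal A) (m n : ℕ) (f : ℕ → A) (hht : (m : ℕ∞) ≤ 𝔪.height)
    (hprim : ∀ P : Ideal A, P.IsPrime → (∀ i < n, f i ∈ P) → 𝔪 ≤ P) (k : ℕ) (hk : k ≤ m) :
    ∃ c : ℕ → A, (∀ i < k, c i - f i ∈ Ideal.span (f '' Set.Ioo i n)) ∧
      ∀ P : Ideal A, P.IsPrime → (∀ i < k, c i ∈ P) → (k : ℕ∞) ≤ P.height := by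
  classical
  induction k with
  | zero => exact ⟨fun _ => 0, by simp, by simp⟩
  | succ k ih =>
    obtain ⟨c, hc1, hc2⟩ := ih (by omega)
    set J := Ideal.span (c '' Set.Iio k) with hJ
    have hfin : J.minimalPrimes.Finite := Ideal.finite_minimalPrimes_of_isNoetherianRing A J
    have hkey : ∀ P ∈ hfin.toFinset, ¬ (f k ∈ P ∧ Ideal.span (f '' Set.Ioo k n) ≤ P) := by
      intro P hP hcon
      rw [Set.Finite.mem_toFinset] at hP
      have hPp : P.IsPrime := hP.1.1
      have hcP : ∀ i < k, c i ∈ P := fun i hi => hP.1.2 (Ideal.subset_span ⟨i, hi, rfl⟩)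
      have h1 : P.height ≤ (k : ℕ∞) := by
        refine (Ideal.height_le_card_of_mem_minimalPrimes_span ((Set.finite_Iio k).image c) hP).trans ?_
        have := Set.ncard_image_le (f := c) (Set.finite_Iio k)
        have h2 : (Set.Iio k).ncard = k := by
          rw [← Finset.coe_Iio, Set.ncard_coe_finset]; simp
        rw [h2] at this
        exact_mod_cast this
      -- all elements belong to `P`
      have h3 : ∀ j, j ≤ n → ∀ i, n - j ≤ i → i < n → f i ∈ P := by
        intro j
        induction j with
        | zero => intro _ i h h'; omega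
        | succ j ihj =>
          intro hj i h h'
          rcases Nat.lt_or_ge i k with hik | hik
          · have h4 : Ideal.span (f '' Set.Ioo i n) ≤ P := by
              rw [Ideal.span_le]
              rintro _ ⟨l, ⟨hl1, hl2⟩, rfl⟩
              exact ihj (by omega) l (by omega) hl2
            have := P.sub_mem (hcP i hik) (h4 (hc1 i hik))
            rwa [sub_sub_cancel] at this
          · rcases Nat.eq_or_lt_of_le hik with rfl | hik
            · exact hcon.1
            · exact hcon.2 (Ideal.subset_span ⟨i, ⟨hik, h'⟩, rfl⟩)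
      have h4 := hprim P hPp (fun i hi => h3 n le_rfl i (by omega) hi)
      have h5 := (hht.trans (Ideal.height_mono h4)).trans h1
      have h6 : m ≤ k := by exact_mod_cast h5
      omega
    obtain ⟨t, ht, ht'⟩ := davis hfin.toFinset (fun P hP => by
        rw [Set.Finite.mem_toFinset] at hP
        exact hP.1.1)
      (fun P hP Q hQ hPQ => by
        rw [Set.Finite.mem_toFinset] at hP hQ
        exact le_antisymm hPQ (hQ.2 hP.1 hPQ)) (f k) _ hkey
    refine ⟨Function.update c k (f k + t), ?_, ?_⟩
    · intro i hi
      rcases Nat.lt_or_ge i k with hik | hik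
      · rw [Function.update_of_ne (by omega)]
        exact hc1 i hik
      · obtain rfl : i = k := by omega
        rw [Function.update_self, add_sub_cancel_left]
        exact ht
    · intro Q hQ hcQ
      have hJQ : J ≤ Q := by
        rw [hJ, Ideal.span_le]
        rintro _ ⟨i, hi, rfl⟩
        have := hcQ i (Nat.lt_succ_of_lt hi)
        rwa [Function.update_of_ne (ne_of_lt hi)] at this
      obtain ⟨P, hP, hPQ⟩ := Ideal.exists_minimalPrimes_le hJQ
      have hPp : P.IsPrime := hP.1.1
      have h1 : (k : ℕ∞) ≤ P.height :=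
        hc2 P hPp (fun i hi => hP.1.2 (Ideal.subset_span ⟨i, hi, rfl⟩))
      have h2 : P < Q := by
        refine lt_of_le_of_ne hPQ ?_
        rintro rfl
        have := hcQ k (Nat.lt_succ_self k)
        rw [Function.update_self] at this
        exact ht' P (by rw [Set.Finite.mem_toFinset]; exact hP) this
      have h3 : P.height + 1 ≤ Q.height := Ideal.height_add_one_le_of_lt_of_isPrime h2
      push_cast
      exact (add_le_add_left h1 1).trans h3

end params

end H18H
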