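import Pool.Agent.H18H.Eagon
import Pool.Agent.H18H.FreeReg
import Pool.Agent.H18H.Loc

/-! # The ranks of the last two differentials of a resolution of a finite length cyclic module -/

set_option autoImplicit false
set_option linter.unusedSectionVars false
set_option linter.style.haveILetI false

namespace H18H

open MvPolynomial Matrix Horr RingTheory.Sequence IsLocalRing

universe u v

section local_

variable {k : Type u} [Field k] {n : ℕ} {I : Ideal (MvPolynomial (Fin (n + 1)) k)}
  (F : FreeRes (MvPolynomial (Fin (n + 1)) k) (MvPolynomial (Fin (n + 1)) k ⧸ I))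
  (A : Type u) [CommRing A] [Algebra (MvPolynomial (Fin (n + 1)) k) A]

/-- The localized differentials. -/
noncomputable def dA (j : ℕ) : (Fin (F.rk (j + 1)) → A) →ₗ[A] (Fin (F.rk j) → A) :=
  ((DM F j).map (algebraMap (MvPolynomial (Fin (n + 1)) k) A)).mulVecLin

lemma dA_apply (j : ℕ) (v : Fin (F.rk (j + 1)) → A) : dA F A j v =
    (DM F j).map (algebraMap (MvPolynomial (Fin (n + 1)) k) A) *ᵥ v := rfl

lemma dA_dA (j : ℕ) (v : Fin (F.rk (j + 2)) → A) : dA F A j (dA F A (j + 1) v) = 0 := by
  rw [dA_apply, dA_apply, Matrix.mulVec_mulVec, ← Matrix.map_mul, DM_mul_DM,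
    Matrix.map_zero _ (map_zero _), Matrix.zero_mulVec]

variable [IsLocalization.AtPrime A (mO k (n + 1))]

lemma primeCompl_le : (mO k (n + 1)).primeCompl ≤ nonZeroDivisors (MvPolynomial (Fin (n + 1)) k) :=
  (mO k (n + 1)).primeCompl_le_nonZeroDivisors

lemma dA_exact (j : ℕ) (v : Fin (F.rk (j + 1)) → A) (hv : dA F A j v = 0) :
    ∃ y, dA F A (j + 1) y = v :=
  exact_loc (mO k (n + 1)).primeCompl primeCompl_le (DM F j) (DM F (j + 1)) (by
    intro v hv
    rw [DM_mulVec] at hv
    obtain ⟨y, hy⟩ := (F.exact_succ j v).1 hv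
    exact ⟨y, by rw [DM_mulVec, hy]⟩) v hv

/-- The ranges are free at the end. -/
lemma free_range [IsLocalRing A] [IsNoetherianRing A] :
    Module.Free A (LinearMap.range (dA F A n)) := by
  refine free_of_isWeaklyRegular (xsA k (n + 1) A) (ofList_xsA k (n + 1) A) _ ?_
  exact reg_range n (xsA k (n + 1) A) (xsA_length k (n + 1) A) (fun i => Fin (F.rk i) → A)
    (dA F A) (dA_dA F A) (fun i => xsA_regular k (n + 1) A _) (dA_exact F A)

/-- the ideal lies in the maximal ideal -/
lemma le_mO (h1 : I ≠ ⊤) (hX : ∀ j : Fin (n + 1), ∃ N : ℕ, (X j : MvPolynomial (Fin (n + 1)) k) ^ N ∈ I) :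
    I ≤ mO k (n + 1) := by
  obtain ⟨P, hP, hle⟩ := Ideal.exists_le_maximal _ h1
  have h2 : mO k (n + 1) ≤ P := by
    rw [mO_eq, Ideal.ofList, Ideal.span_le]
    intro x hx
    obtain ⟨j, rfl⟩ := (mem_vs k (n + 1) x).1 hx
    obtain ⟨N, hN⟩ := hX j
    exact hP.isPrime.mem_of_pow_mem N (hle hN)
  rwa [(mO_isMaximal k (n + 1)).eq_of_le hP.ne_top h2]

lemma smul_quot_eq_zero {g : MvPolynomial (Fin (n + 1)) k} (hg : g ∈ I)
    (x : MvPolynomial (Fin (n + 1)) k ⧸ I) : g • x = 0 := by
  obtain ⟨x, rfl⟩ := Ideal.Quotient.mk_surjective x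
  rw [← Ideal.Quotient.mk_eq_mk, ← Submodule.Quotient.mk_smul, Submodule.Quotient.mk_eq_zero,
    smul_eq_mul]
  exact I.mul_mem_right _ hg

/-- the first differential is not surjective at the origin -/
lemma dA_zero_not_surjective (h1 : I ≤ mO k (n + 1)) : ¬ Function.Surjective (dA F A 0) := by
  intro hs
  obtain ⟨e, he⟩ := F.aug_surjective (Ideal.Quotient.mk I 1)
  obtain ⟨y, hy⟩ := hs fun i => algebraMap _ _ (e i)
  obtain ⟨s, hs⟩ := IsLocalization.exist_integer_multiples (mO k (n + 1)).primeCompl Finset.univ y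
  choose w hw using fun i => hs i (Finset.mem_univ i)
  have hinj : Function.Injective (algebraMap (MvPolynomial (Fin (n + 1)) k) A) :=
    IsLocalization.injective _ primeCompl_le
  have hw' : (fun i => algebraMap (MvPolynomial (Fin (n + 1)) k) A (w i)) =
      algebraMap _ A (s : MvPolynomial (Fin (n + 1)) k) • y := by
    funext i
    rw [hw i, Pi.smul_apply, smul_eq_mul, Algebra.smul_def]
  have h2 : F.d 0 w = (s : MvPolynomial (Fin (n + 1)) k) • e := by
    rw [← DM_mulVec]
    funext i
    apply hinj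
    have h3 : algebraMap (MvPolynomial (Fin (n + 1)) k) A ((DM F 0 *ᵥ w) i) =
        ((DM F 0).map (algebraMap (MvPolynomial (Fin (n + 1)) k) A) *ᵥ
          fun i => algebraMap (MvPolynomial (Fin (n + 1)) k) A (w i)) i := by
      simp only [Matrix.mulVec, dotProduct, Matrix.map_apply, map_sum, map_mul]
    rw [h3, hw', Matrix.mulVec_smul, ← dA_apply, hy, Pi.smul_apply, smul_eq_mul, ← map_mul,
      Pi.smul_apply, smul_eq_mul]
  have h4 : F.aug ((s : MvPolynomial (Fin (n + 1)) k) • e) = 0 := by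
    rw [← h2]
    exact F.exact_zero.apply_apply_eq_zero w
  rw [map_smul, he, ← Ideal.Quotient.mk_eq_mk, ← Submodule.Quotient.mk_smul,
    Submodule.Quotient.mk_eq_zero, smul_eq_mul, mul_one] at h4
  exact s.2 (h1 h4)

/-- if the `n`-th range has a complement, then the resolution is too short: contradiction -/
lemma no_retraction (h1 : I ≤ mO k (n + 1))
    (hX : ∀ j : Fin (n + 1), ∃ N : ℕ, (X j : MvPolynomial (Fin (n + 1)) k) ^ N ∈ I)
    (r : (Fin (F.rk n) → A) →ₗ[A] (Fin (F.rk n) → A))
    (hr1 : ∀ v, r v ∈ LinearMap.range (dA F A n)) (hr2 : ∀ v ∈ LinearMap.range (dA F A n), r v = v) :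
    False := by
  let N : (i : ℕ) → Submodule A (Fin (F.rk i) → A) := fun i =>
    if i < n then ⊥ else if i = n then LinearMap.range (dA F A i) else ⊤
  have hN1 : ∀ i, i < n → N i = ⊥ := fun i hi => by simp only [N, if_pos hi]
  have hN2 : N n = LinearMap.range (dA F A n) := by
    simp only [N, if_neg (lt_irrefl n), if_true]
  have hN3 : ∀ i, n < i → N i = ⊤ := fun i hi => by
    simp only [N, if_neg (not_lt.2 hi.le), if_neg hi.ne']
  have hNd : ∀ i, N (i + 1) ≤ (N i).comap (dA F A i) := by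
    intro i
    rcases lt_trichotomy (i + 1) n with h | h | h
    · rw [hN1 _ h]; exact bot_le
    · subst h
      rw [hN2, hN1 i (Nat.lt_succ_self i)]
      rintro _ ⟨y, rfl⟩
      rw [Submodule.mem_comap, dA_dA]
      exact Submodule.zero_mem _
    · rcases Nat.lt_or_ge n i with h' | h'
      · rw [hN3 i h']
        exact le_top
      · have hi : i = n := by omega
        subst hi
        rw [hN2]
        intro y _
        exact ⟨y, rfl⟩
  have hproj : Module.Projective A ((Fin (F.rk n) → A) ⧸ N n) := by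
    have hk : N n ≤ LinearMap.ker (LinearMap.id - r) := by
      rw [hN2]
      intro v hv
      rw [LinearMap.mem_ker, LinearMap.sub_apply, LinearMap.id_apply, hr2 v hv, sub_self]
    refine Module.Projective.of_split ((N n).liftQ (LinearMap.id - r) hk) (N n).mkQ ?_
    apply Submodule.linearMap_qext
    refine LinearMap.ext fun v => ?_
    simp only [LinearMap.comp_apply, Submodule.mkQ_apply, Submodule.liftQ_apply,
      LinearMap.sub_apply, LinearMap.id_apply]
    rw [Submodule.Quotient.eq, sub_sub_cancel_left, hN2]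
    exact Submodule.neg_mem _ (hr1 v)
  have key : ∀ v : (Fin (F.rk 0) → A) ⧸ N 0,
      ∃ y, (N 1).mapQ (N 0) (dA F A 0) (hNd 0) y = v := by
    intro v
    refine Pool.Agent.HC5.depth_lemma n (xsA k (n + 1) A) (by rw [xsA_length]; omega)
      (fun i => (Fin (F.rk i) → A) ⧸ N i) (fun i => (N (i + 1)).mapQ (N i) (dA F A i) (hNd i))
      ?_ ?_ ?_ ?_ v ?_
    · intro i z
      obtain ⟨z, rfl⟩ := Submodule.Quotient.mk_surjective _ z
      rw [Submodule.mapQ_apply, Submodule.mapQ_apply, dA_dA, Submodule.Quotient.mk_zero]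
    · intro i hi
      rcases Nat.lt_or_ge i n with h | h
      · have e : ((Fin (F.rk i) → A) ⧸ N i) ≃ₗ[A] (Fin (F.rk i) → A) :=
          Submodule.quotEquivOfEqBot _ (hN1 i h)
        exact (e.isWeaklyRegular_congr _).2 (xsA_regular k (n + 1) A _)
      · have hin : i = n := by omega
        rw [hin]
        haveI := hproj
        exact xsA_regular k (n + 1) A _
    · intro i hi
      refine ⟨fun a b => ?_⟩
      obtain ⟨a, rfl⟩ := Submodule.Quotient.mk_surjective _ a
      obtain ⟨b, rfl⟩ := Submodule.Quotient.mk_surjective _ b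
      rw [Submodule.Quotient.eq, hN3 i hi]
      exact Submodule.mem_top
    · intro i z hz
      obtain ⟨z, rfl⟩ := Submodule.Quotient.mk_surjective _ z
      rw [Submodule.mapQ_apply, Submodule.Quotient.mk_eq_zero] at hz
      rcases lt_trichotomy (i + 1) n with h | h | h
      · rw [hN1 i (by omega), Submodule.mem_bot] at hz
        obtain ⟨y, hy⟩ := dA_exact F A i z hz
        exact ⟨Submodule.Quotient.mk y, by rw [Submodule.mapQ_apply, hy]⟩
      · rw [hN1 i (by omega), Submodule.mem_bot] at hz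
        obtain ⟨y, hy⟩ := dA_exact F A i z hz
        refine ⟨0, ?_⟩
        rw [map_zero, eq_comm, Submodule.Quotient.mk_eq_zero, ← hy]
        have : N (i + 1) = LinearMap.range (dA F A (i + 1)) := by
          simp only [N, if_neg (not_lt.2 h.ge), if_pos h]
        rw [this]
        exact ⟨y, rfl⟩
      · refine ⟨0, ?_⟩
        rw [map_zero, eq_comm, Submodule.Quotient.mk_eq_zero, hN3 (i + 1) h]
        exact Submodule.mem_top
    · intro x hx
      obtain ⟨v, rfl⟩ := Submodule.Quotient.mk_surjective _ v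
      rw [xsA, List.mem_map] at hx
      obtain ⟨x, hx, rfl⟩ := hx
      obtain ⟨j, rfl⟩ := (mem_vs k (n + 1) x).1 hx
      obtain ⟨e, he⟩ := hX j
      obtain ⟨σ, hσ⟩ := hom_zero F (X j ^ e) (smul_quot_eq_zero he)
      refine ⟨e, Submodule.Quotient.mk
        ((σ.map (algebraMap (MvPolynomial (Fin (n + 1)) k) A)) *ᵥ v), ?_⟩
      rw [Submodule.mapQ_apply, dA_apply, Matrix.mulVec_mulVec, ← Matrix.map_mul, hσ, map_smul_one,
        Matrix.smul_mulVec, Matrix.one_mulVec, map_pow]
      rfl
  apply dA_zero_not_surjective F A h1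
  intro v
  obtain ⟨y, hy⟩ := key (Submodule.Quotient.mk v)
  obtain ⟨y, rfl⟩ := Submodule.Quotient.mk_surjective _ y
  rw [Submodule.mapQ_apply, Submodule.Quotient.eq] at hy
  rcases Nat.eq_zero_or_pos n with h0 | h0
  · have : N 0 = LinearMap.range (dA F A 0) := by
      simp only [N, h0, lt_irrefl, if_false, if_true]
    rw [this] at hy
    obtain ⟨z, hz⟩ := hy
    refine ⟨y - z, ?_⟩
    rw [map_sub, hz, sub_sub_cancel]
  · rw [hN1 0 h0, Submodule.mem_bot, sub_eq_zero] at hy
    exact ⟨y, hy⟩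

/-- The ranks of the last two differentials, in terms of the alternating sums: the number of
variables is `n + 1`. -/
theorem top_ranks_aux [IsDomain A] [IsLocalRing A] [IsNoetherianRing A] (h1 : I ≠ ⊤)
    (hX : ∀ j : Fin (n + 1), ∃ N : ℕ, (X j : MvPolynomial (Fin (n + 1)) k) ^ N ∈ I) :
    (n : ℤ) + rho F.rk n ≤ F.rk n ∧ 1 ≤ rho F.rk n := by
  have hI := le_mO h1 hX
  let φ : MvPolynomial (Fin (n + 1)) k →+* A := algebraMap (MvPolynomial (Fin (n + 1)) k) A
  have hφ : Function.Injective φ := IsLocalization.injective _ primeCompl_le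
  haveI : Module.Free A (LinearMap.range (dA F A n)) := free_range F A
  let Z := LinearMap.range (dA F A n)
  let p := Module.finrank A Z
  let bZ : Module.Basis (Fin p) A Z := Module.finBasis A Z
  let C : Matrix (Fin (F.rk n)) (Fin p) A := Matrix.of fun i j => (bZ j : Fin (F.rk n) → A) i
  have hC : ∀ v : Fin p → A, C *ᵥ v = ((∑ j, v j • bZ j : Z) : Fin (F.rk n) → A) := by
    intro v
    funext i
    rw [Submodule.coe_sum, Finset.sum_apply]
    simp only [C, Matrix.mulVec, dotProduct, Matrix.of_apply, Submodule.coe_smul, Pi.smul_apply,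
      smul_eq_mul]
    exact Finset.sum_congr rfl fun _ _ => mul_comm _ _
  have hCinj : ∀ v : Fin p → A, C *ᵥ v = 0 → v = 0 := by
    intro v hv
    rw [hC] at hv
    have h2 : (∑ j, v j • bZ j : Z) = 0 := Subtype.ext hv
    have h3 := (Fintype.linearIndependent_iff.1 bZ.linearIndependent) v h2
    funext i
    exact h3 i
  have hCZ : ∀ (z : Fin (F.rk n) → A) (hz : z ∈ Z), C *ᵥ (fun j => bZ.repr ⟨z, hz⟩ j) = z := by
    intro z hz
    rw [hC, bZ.sum_repr]
  have hCmem : ∀ v : Fin p → A, C *ᵥ v ∈ Z := by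
    intro v
    rw [hC]
    exact (∑ j, v j • bZ j : Z).2
  -- homotopies
  have hT : ∀ g ∈ I, φ g ∈ J Cᵀ := by
    intro g hg
    obtain ⟨σ, hσ, -⟩ := hom_aux F g (smul_quot_eq_zero hg) n
    have h2 : ∃ T : Matrix (Fin p) (Fin (F.rk n)) A, C * T = (DM F n).map φ * σ.map φ := by
      apply exists_matrix
      intro j
      have h3 : (fun i => ((DM F n).map φ * σ.map φ) i j) ∈ Z :=
        ⟨fun i => (σ.map φ) i j, rfl⟩
      exact ⟨_, hCZ _ h3⟩
    obtain ⟨T, hT⟩ := h2
    have h3 : (DM F n).map φ * σ.map φ * (DM F n).map φ = φ g • (DM F n).map φ := by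
      rw [← Matrix.map_mul, ← Matrix.map_mul, hσ]
      ext i j
      simp [Matrix.map_apply, Matrix.smul_apply]
    have h4 : C * T * C = φ g • C := by
      rw [hT]
      ext i j
      obtain ⟨w, hw⟩ := (bZ j).2
      have h5 : ∀ i, C i j = ((DM F n).map φ *ᵥ w) i := fun i => (congrFun hw i).symm
      have h6 : (fun i => C i j) = (DM F n).map φ *ᵥ w := funext h5
      have h7 : ((DM F n).map φ * σ.map φ * C) i j =
          (((DM F n).map φ * σ.map φ) *ᵥ (fun i => C i j)) i := rfl
      rw [h7, h6, Matrix.mulVec_mulVec, h3, Matrix.smul_mulVec, Matrix.smul_apply, h5]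
      rfl
    have h5 : T * C = φ g • 1 := by
      rw [← sub_eq_zero]
      ext i j
      have h6 : C *ᵥ (fun i => (T * C - φ g • (1 : Matrix (Fin p) (Fin p) A)) i j) = 0 := by
        have h7 : C * (T * C - φ g • (1 : Matrix (Fin p) (Fin p) A)) = 0 := by
          rw [Matrix.mul_sub, ← Matrix.mul_assoc, h4, Matrix.mul_smul, Matrix.mul_one, sub_self]
        funext i
        exact congrFun (congrFun h7 i) j
      exact congrFun (hCinj _ h6) i
    refine ⟨Tᵀ, ?_⟩
    rw [← Matrix.transpose_mul, h5, Matrix.transpose_smul, Matrix.transpose_one]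
  -- no retraction
  have hno : J Cᵀ ≤ maximalIdeal A := by
    apply IsLocalRing.le_maximalIdeal
    intro htop
    obtain ⟨Ψ, hΨ⟩ : (1 : A) ∈ J Cᵀ := by rw [htop]; exact Submodule.mem_top
    rw [one_smul] at hΨ
    have h2 : Ψᵀ * C = 1 := by
      rw [← Matrix.transpose_transpose C, ← Matrix.transpose_mul, hΨ, Matrix.transpose_one]
    refine no_retraction F A hI hX (C * Ψᵀ).mulVecLin ?_ ?_
    · intro v
      rw [Matrix.mulVecLin_apply, ← Matrix.mulVec_mulVec]
      exact hCmem _
    · intro v hv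
      rw [Matrix.mulVecLin_apply]
      conv_lhs => rw [← hCZ v hv]
      rw [Matrix.mulVec_mulVec, Matrix.mul_assoc, h2, Matrix.mul_one]
      exact hCZ v hv
  have hp : 1 ≤ p := by
    by_contra hp0
    have hp1 : p = 0 := by omega
    haveI : IsEmpty (Fin p) := by rw [hp1]; infer_instance
    have : (1 : A) ∈ J Cᵀ := ⟨0, by ext i; exact isEmptyElim i⟩
    exact (Ideal.ne_top_iff_one _).1 (IsLocalRing.maximalIdeal.isMaximal A).ne_top (hno this)
  have hple : p ≤ F.rk n := by
    have h2 : Function.Injective C.mulVecLin := by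
      rw [← LinearMap.ker_eq_bot, LinearMap.ker_eq_bot']
      exact hCinj
    have := LinearMap.finrank_le_finrank_of_injective h2
    simpa using this
  -- the maximal ideal is a minimal prime
  have hmin : maximalIdeal A ∈ (J Cᵀ).minimalPrimes := by
    refine ⟨⟨(IsLocalRing.maximalIdeal.isMaximal A).isPrime, hno⟩, ?_⟩
    rintro Q ⟨hQ, hJQ⟩ -
    rw [← ofList_xsA k (n + 1) A, Ideal.ofList, Ideal.span_le]
    intro x hx
    obtain ⟨x, hx', rfl⟩ := List.mem_map.1 hx
    obtain ⟨j, rfl⟩ := (mem_vs k (n + 1) x).1 hx'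
    obtain ⟨e, he⟩ := hX j
    have := hJQ (hT _ he)
    rw [map_pow] at this
    exact hQ.mem_of_pow_mem _ this
  have heag := eagon p (by simp) (by simp; omega) Cᵀ (maximalIdeal A) hmin
  have hht : ((n + 1 : ℕ) : ℕ∞) ≤ (maximalIdeal A).height := by
    refine (le_height_mO k (n + 1)).trans ?_
    have h2 := IsLocalization.AtPrime.ringKrullDim_eq_height (mO k (n + 1)) A
    have h3 := IsLocalRing.maximalIdeal_height_eq_ringKrullDim (R := A)
    rw [h2] at h3
    exact (WithBot.coe_injective h3).ge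
  -- the rank
  have hrank : (p : ℤ) = rho F.rk n := by
    let K := FractionRing A
    obtain ⟨e, he⟩ := hX 0
    let ψ : MvPolynomial (Fin (n + 1)) k →+* K := (algebraMap A K).comp φ
    have hψ : Function.Injective ψ := (IsFractionRing.injective A K).comp hφ
    have h2 := rank_DM F ψ (X 0 ^ e) (smul_quot_eq_zero he)
      ((map_ne_zero_iff ψ hψ).2 (pow_ne_zero _ (X_ne_zero 0))) n
    rw [← h2]
    -- `D = C W`, `C = D V`
    have h3 : ∃ W : Matrix (Fin p) (Fin (F.rk (n + 1))) A, C * W = (DM F n).map φ := by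
      apply exists_matrix
      intro j
      have h3 : (fun i => ((DM F n).map φ) i j) ∈ Z := by
        refine ⟨Pi.single j 1, ?_⟩
        rw [dA_apply, Matrix.mulVec_single_one]
        rfl
      exact ⟨_, hCZ _ h3⟩
    have h4 : ∃ V : Matrix (Fin (F.rk (n + 1))) (Fin p) A, (DM F n).map φ * V = C := by
      apply exists_matrix
      intro j
      exact (bZ j).2
    obtain ⟨W, hW⟩ := h3
    obtain ⟨V, hV⟩ := h4
    have e1 : (DM F n).map ψ = ((DM F n).map φ).map (algebraMap A K) := by
      rw [Matrix.map_map]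
      rfl
    have hCr : (C.map (algebraMap A K)).rank = p := by
      have h5 : Function.Injective (C.map (algebraMap A K)).mulVecLin := by
        rw [← LinearMap.ker_eq_bot, LinearMap.ker_eq_bot']
        intro v hv
        have h6 := exact_loc (A := K) (nonZeroDivisors A) le_rfl C
          (0 : Matrix (Fin p) (Fin 0) A) (fun v hv => ⟨0, by rw [hCinj v hv, Matrix.mulVec_zero]⟩) v hv
        obtain ⟨y, hy⟩ := h6
        rw [← hy, Matrix.map_zero _ (map_zero _), Matrix.zero_mulVec]
      rw [Matrix.rank, LinearMap.finrank_range_of_inj h5]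
      simp
    have hle1 : ((DM F n).map ψ).rank ≤ p := by
      rw [e1, ← hW, Matrix.map_mul]
      exact (Matrix.rank_mul_le_left _ _).trans hCr.le
    have hle2 : p ≤ ((DM F n).map ψ).rank := by
      rw [e1, ← hCr, ← hV, Matrix.map_mul]
      exact Matrix.rank_mul_le_left _ _
    exact_mod_cast le_antisymm hle2 hle1
  rw [Fintype.card_fin] at heag
  have h5 : ((n + 1 : ℕ) : ℕ∞) + p ≤ F.rk n + 1 := by
    refine le_trans ?_ heag
    gcongr
  have h6 : n + 1 + p ≤ F.rk n + 1 := by exact_mod_cast h5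
  rw [← hrank]
  omega

/-- The ranks of the last two differentials. -/
theorem top_ranks (h1 : I ≠ ⊤)
    (hX : ∀ j : Fin (n + 1), ∃ N : ℕ, (X j : MvPolynomial (Fin (n + 1)) k) ^ N ∈ I) :
    (n : ℤ) + rho F.rk n ≤ F.rk n ∧ 1 ≤ rho F.rk n :=
  haveI : IsNoetherianRing (Localization.AtPrime (mO k (n + 1))) :=
    IsLocalization.isNoetherianRing (mO k (n + 1)).primeCompl _ inferInstance
  top_ranks_aux F (Localization.AtPrime (mO k (n + 1))) h1 hX

end local_

/-- The statement for `m ≥ 2` variables: the last but one syzygy module has rank at least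
`m - 1`, the last one at least one. -/
theorem top_ranks' {k : Type u} [Field k] {m : ℕ} (hm : 2 ≤ m)
    {I : Ideal (MvPolynomial (Fin m) k)}
    (F : FreeRes (MvPolynomial (Fin m) k) (MvPolynomial (Fin m) k ⧸ I)) (h1 : I ≠ ⊤)
    (hX : ∀ j : Fin m, ∃ N : ℕ, (X j : MvPolynomial (Fin m) k) ^ N ∈ I) :
    (m : ℤ) - 1 ≤ rho F.rk (m - 2) ∧ 1 ≤ rho F.rk (m - 1) := by
  obtain ⟨n, rfl⟩ : ∃ n, m = n + 2 := ⟨m - 2, by omega⟩
  have h := top_ranks (n := n + 1) F h1 hX
  have h2 : rho F.rk (n + 1) = F.rk (n + 1) - rho F.rk n := rfl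
  have e1 : n + 2 - 2 = n := by omega
  have e2 : n + 2 - 1 = n + 1 := by omega
  rw [e1, e2]
  push_cast at h ⊢
  omega

end H18H
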